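import Pool.Agent.Lib.MP_e426f4_ag.DP.FamPos
import Pool.Agent.Lib.MP_e426f4_ag.DP.FewSing
import Pool.Agent.Lib.MP_e426f4_ag.DL.ChoiceL
import Pool.Agent.Lib.MP_e426f4_ag.WAD.DiagW
import Pool.Agent.Lib.MP_e426f4_ag.WAD.FamC

/-!
# The Hasse principle and weak approximation for random hypersurfaces in thin families

Let `d ≥ 4`, `n ≥ d + 3` and `n > d + (3/4) √d`.  Let `G` be any integral form of degree `d` in `n + 1` variables and `M` any set of monomials
of degree `d` which contains the pure powers `x₀ ^ d, …, xₙ ^ d`.  One hundred per cent of the everywhere locally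
soluble smooth hypersurfaces `G + ∑_{m ∈ M} c_m m = 0` in `ℙⁿ`, ordered by the size `H` of the coefficients `c_m`, have a rational
point; they even satisfy weak approximation up to a level `w(H)` which tends to infinity with `H`, by points with
small coordinates; and a positive proportion of all these hypersurfaces is smooth and everywhere locally soluble.
Moreover the number of the exceptional diagonal perturbations `G + ∑ a_i x_i ^ d` is small uniformly in `G`.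
-/

namespace Pool.Agent.Results.MP_e426f4_ag.DiagonalCosets

open Filter Topology MvPolynomial

/-- The hypersurface `F = 0` in `ℙⁿ` has a point over the field `K`. -/
def HasPoint {n : ℕ} (F : MvPolynomial (Fin (n + 1)) ℤ) (K : Type) [Field K] : Prop :=
  ∃ x : Fin (n + 1) → K, x ≠ 0 ∧ aeval x F = 0

/-- The hypersurface `F = 0` is smooth: the partial derivatives of `F` have no common non-zero complex zero. -/
def IsSmooth {n : ℕ} (F : MvPolynomial (Fin (n + 1)) ℤ) : Prop :=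
  ∀ x : Fin (n + 1) → ℂ, x ≠ 0 → ∃ i, aeval x (pderiv i F) ≠ 0

/-- The hypersurface `F = 0` has points over all completions of `ℚ`. -/
def EverywhereLocallySoluble {n : ℕ} (F : MvPolynomial (Fin (n + 1)) ℤ) : Prop :=
  HasPoint F ℝ ∧ ∀ (p : ℕ) [Fact p.Prime], HasPoint F ℚ_[p]

/-- Weak approximation at the real place and at the primes `p ≤ w`, with precision `1 / w`, by small points: for all
real zeros `y` and all `p`-adic zeros `z p`, `p ≤ w`, of norm one (maximum norm) there is an integral zero `x ≠ 0`, `|x_i| ^ e ≤ H`,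
such that some positive multiple of `x` is within `1 / w` of `y`, and `x` is within `1 / w` of all the `z p`. -/
def WeakApproximation {n : ℕ} (w e H : ℕ) (F : MvPolynomial (Fin (n + 1)) ℤ) : Prop :=
  ∀ (y : Fin (n + 1) → ℝ) (z : (p : ℕ) → [Fact p.Prime] → Fin (n + 1) → ℚ_[p]),
    ‖y‖ = 1 → aeval y F = 0 →
    (∀ (p : ℕ) [Fact p.Prime], p ≤ w → ‖z p‖ = 1 ∧ aeval (z p) F = 0) →
    ∃ x : Fin (n + 1) → ℤ, x ≠ 0 ∧ eval x F = 0 ∧ (∀ i, |x i| ^ e ≤ (H : ℤ)) ∧
      (∃ t : ℝ, 0 < t ∧ ∀ i, |(x i : ℝ) / t - y i| ≤ 1 / (w : ℝ)) ∧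
      ∀ (p : ℕ) [Fact p.Prime], p ≤ w → ∀ i, ‖(x i : ℚ_[p]) - z p i‖ ≤ 1 / (w : ℝ)

/-- The forms `G + ∑_{m ∈ M} c_m m` with integral coefficients `|c_m| ≤ H`. -/
def Family {n : ℕ} (G : MvPolynomial (Fin (n + 1)) ℤ) (M : Finset (Fin (n + 1) →₀ ℕ)) (H : ℕ) :
    Set (MvPolynomial (Fin (n + 1)) ℤ) :=
  {F | (∀ m ∈ M, |coeff m F - coeff m G| ≤ (H : ℤ)) ∧ ∀ m, m ∉ M → coeff m F = coeff m G}

/-- The members of the family which are smooth and everywhere locally soluble. -/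
def Soluble {n : ℕ} (G : MvPolynomial (Fin (n + 1)) ℤ) (M : Finset (Fin (n + 1) →₀ ℕ)) (H : ℕ) :
    Set (MvPolynomial (Fin (n + 1)) ℤ) :=
  {F | F ∈ Family G M H ∧ IsSmooth F ∧ EverywhereLocallySoluble F}

open Pool.Agent.Lib.MP_e426f4_ag.DP
open Pool.Agent.Lib.MP_e426f4_ag.WAD

private theorem coeff_fmM {s : ℕ} {M : Finset (Fin s →₀ ℕ)} (G : MvPolynomial (Fin s) ℤ)
    (c : M → ℤ) (m : Fin s →₀ ℕ) :
    coeff m (fmM G c) = coeff m G + if h : m ∈ M then c ⟨m, h⟩ else 0 := by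
  unfold fmM
  rw [coeff_add, coeff_sum]
  congr 1
  simp only [coeff_monomial]
  split_ifs with h
  · rw [Finset.sum_eq_single (⟨m, h⟩ : M)]
    · rw [if_pos rfl]
    · intro b _ hb
      rw [if_neg]
      intro h2
      exact hb (Subtype.ext h2)
    · intro h2
      exact absurd (Finset.mem_univ _) h2
  · refine Finset.sum_eq_zero fun b _ => if_neg ?_
    intro h2
    exact h (h2 ▸ b.2)

private theorem fmM_inj {s : ℕ} {M : Finset (Fin s →₀ ℕ)} (G : MvPolynomial (Fin s) ℤ) :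
    Function.Injective (fmM G : (M → ℤ) → MvPolynomial (Fin s) ℤ) := by
  intro c c' h
  funext m
  have h1 := congrArg (coeff (m : Fin s →₀ ℕ)) h
  rw [coeff_fmM, coeff_fmM, dif_pos m.2, dif_pos m.2] at h1
  exact add_left_cancel h1

private theorem family_eq {n : ℕ} (G : MvPolynomial (Fin (n + 1)) ℤ)
    (M : Finset (Fin (n + 1) →₀ ℕ)) (H : ℕ) (Q : MvPolynomial (Fin (n + 1)) ℤ → Prop) :
    {F | F ∈ Family G M H ∧ Q F} =
      (fmM G : (M → ℤ) → _) '' {c : M → ℤ | (∀ m, |c m| ≤ (H : ℤ)) ∧ Q (fmM G c)} := by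
  ext F
  constructor
  · rintro ⟨⟨h1, h2⟩, h3⟩
    have h4 : fmM G (fun m : M => coeff (m : Fin (n + 1) →₀ ℕ) F - coeff m G) = F := by
      ext m
      rw [coeff_fmM]
      split_ifs with h
      · ring
      · rw [add_zero]
        exact (h2 m h).symm
    refine ⟨fun m : M => coeff (m : Fin (n + 1) →₀ ℕ) F - coeff m G, ⟨fun m => h1 m m.2, ?_⟩, h4⟩
    rw [h4]
    exact h3
  · rintro ⟨c, ⟨h1, h2⟩, rfl⟩
    refine ⟨⟨fun m hm => ?_, fun m hm => ?_⟩, h2⟩
    · rw [coeff_fmM, dif_pos hm, add_sub_cancel_left]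
      exact h1 _
    · rw [coeff_fmM, dif_neg hm, add_zero]

private theorem ncard_family {n : ℕ} (G : MvPolynomial (Fin (n + 1)) ℤ)
    (M : Finset (Fin (n + 1) →₀ ℕ)) (H : ℕ) (Q : MvPolynomial (Fin (n + 1)) ℤ → Prop) :
    Set.ncard {F | F ∈ Family G M H ∧ Q F} =
      Set.ncard {c : M → ℤ | (∀ m, |c m| ≤ (H : ℤ)) ∧ Q (fmM G c)} := by
  rw [family_eq, Set.ncard_image_of_injective _ (fmM_inj G)]

private theorem box_finite {M : Type} [Finite M] (H : ℕ) (Q : (M → ℤ) → Prop) :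
    {c : M → ℤ | (∀ m, |c m| ≤ (H : ℤ)) ∧ Q c}.Finite := by
  refine (Set.Finite.pi' (fun _ : M => Set.finite_Icc (-(H : ℤ)) H)).subset ?_
  rintro c ⟨h1, _⟩ i
  exact abs_le.1 (h1 i)

private theorem point_of_int {n : ℕ} {F : MvPolynomial (Fin (n + 1)) ℤ} (x : Fin (n + 1) → ℤ)
    (hx : x ≠ 0) (hx' : eval x F = 0) (K : Type) [Field K] [CharZero K] : HasPoint F K := by
  refine ⟨fun i => (x i : K), ?_, ?_⟩
  · intro h0
    apply hx
    funext i
    have := congrFun h0 i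
    simpa using this
  · have h1 := aeval_algebraMap_apply (R := ℤ) (A := ℤ) K x F
    have h2 : aeval x F = eval x F := by
      rw [← coe_aeval_eq_eval]
      rfl
    rw [h2, hx', map_zero] at h1
    exact h1

private theorem els_of_small {n : ℕ} {e H : ℕ} {F : MvPolynomial (Fin (n + 1)) ℤ}
    (h : SmallF e H F) : EverywhereLocallySoluble F := by
  obtain ⟨x, hx, hx', -⟩ := h
  exact ⟨point_of_int x hx hx' ℝ, fun p _ => point_of_int x hx hx' ℚ_[p]⟩

private theorem hom_fmM {d s : ℕ} {M : Finset (Fin s →₀ ℕ)} (hM : ∀ m ∈ M, m.degree = d)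
    {G : MvPolynomial (Fin s) ℤ} (hG : G.IsHomogeneous d) (c : M → ℤ) :
    (fmM G c).IsHomogeneous d :=
  hG.add (IsHomogeneous.sum _ _ _ fun m _ => isHomogeneous_monomial _ (hM m.1 m.2))

/-- everywhere locally soluble forms with weak approximation have a rational point -/
private theorem point_of_wa {n d w e H : ℕ} {F : MvPolynomial (Fin (n + 1)) ℤ}
    (hF : F.IsHomogeneous d) (hE : EverywhereLocallySoluble F) (h : WeakApproximation w e H F) :
    HasPoint F ℚ := by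
  classical
  obtain ⟨⟨v, hv, hv0⟩, hp⟩ := hE
  have hn : ‖v‖ ≠ 0 := norm_ne_zero_iff.2 hv
  have hy : ‖fun i => ‖v‖⁻¹ * v i‖ = 1 := by
    have h1 : (fun i => ‖v‖⁻¹ * v i) = ‖v‖⁻¹ • v := by
      funext i
      rfl
    rw [h1, norm_smul, norm_inv, norm_norm, inv_mul_cancel₀ hn]
  have hy0 : aeval (fun i => ‖v‖⁻¹ * v i) F = 0 := by
    have h1 := evR_smul hF ‖v‖⁻¹ v
    unfold evR at h1
    rw [h1, hv0, mul_zero]
  have hz : ∀ (p : ℕ) [Fact p.Prime], ∃ ζ : Fin (n + 1) → ℚ_[p], ‖ζ‖ = 1 ∧ aeval ζ F = 0 :=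
    fun p _ => zer_one F hF (hp p)
  choose z hz1 hz2 using hz
  obtain ⟨x, hx, hx0, -⟩ := h (fun i => ‖v‖⁻¹ * v i) (fun p _ => z p) hy hy0
    fun p _ _ => ⟨hz1 p, hz2 p⟩
  exact point_of_int x hx hx0 ℚ

private theorem exists_par (d n : ℕ) (hd : 4 ≤ d) (hn : d + 3 ≤ n) (h : 9 * d < 16 * (n - d) ^ 2) :
    ∃ u l e : ℕ, Par d (n + 1) u l e (min d (n - d)) := by
  obtain ⟨u, l, e, c1, c2, c3, c4, c5⟩ := Pool.Agent.Lib.MP_e426f4_ag.DL.choiceL d n hd hn h
  exact ⟨u, l, e, ⟨hd, by omega, c1, c2, c3, c5, c4, min_le_left _ _⟩⟩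

theorem result (d n : ℕ) (hd : 4 ≤ d) (hn : d + 3 ≤ n) (h : 9 * d < 16 * (n - d) ^ 2) :
    ∃ w : ℕ → ℕ, Tendsto w atTop atTop ∧
    (∀ (G : MvPolynomial (Fin (n + 1)) ℤ) (M : Finset (Fin (n + 1) →₀ ℕ)), G.IsHomogeneous d →
      (∀ m ∈ M, ∑ i, m i = d) → (∀ i, Finsupp.single i d ∈ M) →
      (∃ c : ℝ, 0 < c ∧ ∀ᶠ H : ℕ in atTop, c * (2 * (H : ℝ) + 1) ^ M.card ≤
        (Set.ncard (Soluble G M H) : ℝ)) ∧
      Tendsto (fun H : ℕ => (Set.ncard {F | F ∈ Soluble G M H ∧ HasPoint F ℚ} : ℝ) /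
        Set.ncard (Soluble G M H)) atTop (𝓝 1) ∧
      Tendsto (fun H : ℕ =>
        (Set.ncard {F | F ∈ Soluble G M H ∧ WeakApproximation (w H) (min d (n - d)) H F} : ℝ) /
        Set.ncard (Soluble G M H)) atTop (𝓝 1)) ∧
    ∀ ε : ℝ, 0 < ε → ∃ H0 : ℕ, ∀ H : ℕ, H0 ≤ H → ∀ G : MvPolynomial (Fin (n + 1)) ℤ,
      G.IsHomogeneous d → (∀ m, |coeff m G| ≤ 2 * (H : ℤ)) →
      (Set.ncard {a : Fin (n + 1) → ℤ | (∀ i, |a i| ≤ (H : ℤ)) ∧
        EverywhereLocallySoluble (G + ∑ i, C (a i) * X i ^ d) ∧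
        ¬ WeakApproximation (w H) (min d (n - d)) H (G + ∑ i, C (a i) * X i ^ d)} : ℝ) ≤
        ε * (H : ℝ) ^ (n + 1) := by
  classical
  obtain ⟨u, l, e, hP⟩ := exists_par d n hd hn h
  obtain ⟨w, hw, hwb⟩ := exists_w d (n + 1) u l e (min d (n - d)) hP
  refine ⟨w, hw, fun G M hG hM hM' => ?_, fun ε hε => ?_⟩
  · have hM1 : ∀ m ∈ M, m.degree = d := fun m hm => by
      rw [Finsupp.degree_eq_sum]
      exact hM m hm
    obtain ⟨c1, hc1, hpos⟩ := fam_pos d (n + 1) u l e (min d (n - d)) hP M hM1 hM' G hG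
    have hSol : ∀ H, Soluble G M H = {F | F ∈ Family G M H ∧ (IsSmooth F ∧
        EverywhereLocallySoluble F)} := fun H => rfl
    have hNS : ∀ H, Set.ncard (Soluble G M H) = Set.ncard {c : M → ℤ | (∀ m, |c m| ≤ (H : ℤ)) ∧
        (IsSmooth (fmM G c) ∧ EverywhereLocallySoluble (fmM G c))} := fun H => by
      rw [hSol, ncard_family]
    -- the lower bound
    have hlow : ∀ᶠ H : ℕ in atTop, c1 / 2 * (2 * (H : ℝ) + 1) ^ M.card ≤
        (Set.ncard (Soluble G M H) : ℝ) := by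
      filter_upwards [hpos, few_sing d (n + 1) (by omega) M hM1 hM' G hG (c1 / 2) (by positivity)]
        with H g1 g2
      rw [hNS]
      have hsub : {c : M → ℤ | (∀ m, |c m| ≤ (H : ℤ)) ∧ SmallF (min d (n - d)) H (fmM G c)} ⊆
          {c : M → ℤ | (∀ m, |c m| ≤ (H : ℤ)) ∧
            (IsSmooth (fmM G c) ∧ EverywhereLocallySoluble (fmM G c))} ∪
          {c : M → ℤ | (∀ m, |c m| ≤ (H : ℤ)) ∧ ¬ SmoothF (fmM G c)} := by
        rintro c ⟨k1, k2⟩
        by_cases k3 : SmoothF (fmM G c)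
        · exact Or.inl ⟨k1, k3, els_of_small (e := min d (n - d)) (H := H) k2⟩
        · exact Or.inr ⟨k1, k3⟩
      have k1 := (Set.ncard_le_ncard hsub ((box_finite H _).union (box_finite H _))).trans
        (Set.ncard_union_le _ _)
      have k2 : (Set.ncard {c : M → ℤ | (∀ m, |c m| ≤ (H : ℤ)) ∧
          SmallF (min d (n - d)) H (fmM G c)} : ℝ) ≤
          (Set.ncard {c : M → ℤ | (∀ m, |c m| ≤ (H : ℤ)) ∧
            (IsSmooth (fmM G c) ∧ EverywhereLocallySoluble (fmM G c))} : ℝ) +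
          (Set.ncard {c : M → ℤ | (∀ m, |c m| ≤ (H : ℤ)) ∧ ¬ SmoothF (fmM G c)} : ℝ) := by
        exact_mod_cast k1
      linarith
    -- the limit for a property which fails for few forms
    have key : ∀ Q : ℕ → MvPolynomial (Fin (n + 1)) ℤ → Prop,
        (∀ (H : ℕ) (F : MvPolynomial (Fin (n + 1)) ℤ), F.IsHomogeneous d →
          EverywhereLocallySoluble F → WeakApproximation (w H) (min d (n - d)) H F → Q H F) →
        Tendsto (fun H : ℕ => (Set.ncard {F | F ∈ Soluble G M H ∧ Q H F} : ℝ) /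
          Set.ncard (Soluble G M H)) atTop (𝓝 1) := by
      intro Q hQ
      rw [Metric.tendsto_nhds]
      intro ε hε
      filter_upwards [hlow, fam_badC d (n + 1) (min d (n - d)) (by omega) w hwb M hM1 hM' G hG
        (c1 / 2 * ε / 2) (by positivity)] with H g1 g2
      have hQS : {F | F ∈ Soluble G M H ∧ Q H F} = {F | F ∈ Family G M H ∧ ((IsSmooth F ∧
          EverywhereLocallySoluble F) ∧ Q H F)} := by
        ext F
        exact and_assoc
      rw [hQS, ncard_family]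
      rw [hNS] at g1 ⊢
      obtain ⟨A, hA⟩ : ∃ A, A = {c : M → ℤ | (∀ m, |c m| ≤ (H : ℤ)) ∧
        (IsSmooth (fmM G c) ∧ EverywhereLocallySoluble (fmM G c))} := ⟨_, rfl⟩
      obtain ⟨B, hB⟩ : ∃ B, B = {c : M → ℤ | (∀ m, |c m| ≤ (H : ℤ)) ∧
        ((IsSmooth (fmM G c) ∧ EverywhereLocallySoluble (fmM G c)) ∧ Q H (fmM G c))} := ⟨_, rfl⟩
      rw [← hA, ← hB]
      rw [← hA] at g1
      have hAf : A.Finite := by rw [hA]; exact box_finite H _
      have hBA : B ⊆ A := by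
        rw [hA, hB]
        rintro c ⟨k1, k2, -⟩
        exact ⟨k1, k2⟩
      have hdiff : A \ B ⊆ {c : M → ℤ | (∀ m, |c m| ≤ (H : ℤ)) ∧
          (∀ (p : ℕ) [Fact p.Prime], Zer ℚ_[p] (fmM G c)) ∧
          ¬ WAx (w H) (min d (n - d)) H (fmM G c)} := by
        rw [hA, hB]
        rintro c ⟨⟨k1, k2, k3⟩, k4⟩
        exact ⟨k1, fun p _ => k3.2 p, fun k5 =>
          k4 ⟨k1, ⟨k2, k3⟩, hQ H _ (hom_fmM hM1 hG c) k3 k5⟩⟩
      have hd1 : ((A \ B).ncard : ℝ) ≤ c1 / 2 * ε / 2 * (2 * (H : ℝ) + 1) ^ M.card := by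
        refine le_trans ?_ g2
        exact_mod_cast Set.ncard_le_ncard hdiff (box_finite H _)
      have hsum : (A.ncard : ℝ) = (B.ncard : ℝ) + ((A \ B).ncard : ℝ) := by
        have h7 := Set.ncard_sdiff_add_ncard_of_subset hBA hAf
        have h8 : ((A \ B).ncard : ℝ) + (B.ncard : ℝ) = A.ncard := by exact_mod_cast h7
        linarith
      have hW : (0 : ℝ) < (2 * (H : ℝ) + 1) ^ M.card := by positivity
      have hNpos : (0 : ℝ) < A.ncard := lt_of_lt_of_le (by positivity) g1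
      have hB0 : (0 : ℝ) ≤ (A \ B).ncard := Nat.cast_nonneg _
      rw [Real.dist_eq]
      have e1 : (B.ncard : ℝ) / A.ncard - 1 = - (((A \ B).ncard : ℝ) / A.ncard) := by
        rw [hsum] at hNpos ⊢
        field_simp
        ring
      rw [e1, abs_neg, abs_of_nonneg (div_nonneg hB0 hNpos.le), div_lt_iff₀ hNpos]
      have h5 : ε * (c1 / 2 * (2 * (H : ℝ) + 1) ^ M.card) ≤ ε * A.ncard := by gcongr
      have h6 : 0 < c1 / 2 * ε / 2 * (2 * (H : ℝ) + 1) ^ M.card := by positivity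
      nlinarith
    refine ⟨⟨c1 / 2, by positivity, hlow⟩, ?_, ?_⟩
    · exact key (fun _ F => HasPoint F ℚ) fun H F hF hE hWA => point_of_wa hF hE hWA
    · exact key (fun H F => WeakApproximation (w H) (min d (n - d)) H F) fun H F _ _ hWA => hWA
  · obtain ⟨H0, hH0⟩ := hwb ε hε
    refine ⟨H0, fun H hH G hG hGc => ?_⟩
    have g := hH0 H hH G ⟨hG, fun m => by push_cast; exact hGc m⟩
    refine le_trans ?_ g
    rw [Nat.cast_le, ← Set.ncard_coe_finset]
    refine Set.ncard_le_ncard ?_ (Finset.finite_toSet _)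
    rintro a ⟨k1, k2, k3⟩
    rw [Finset.mem_coe, Finset.mem_filter]
    exact ⟨(mem_box _ _ _).2 k1, fun p _ => k2.2 p, k3⟩

end Pool.Agent.Results.MP_e426f4_ag.DiagonalCosets
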