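import Pool.Agent.Lib.MP_e426f4_ag.NKP.Poly
import Pool.Agent.Lib.MP_e426f4_ag.NKP.Final
import Pool.Agent.Lib.MP_e426f4_ag.NKW.Final

/-!
# The Hasse principle and weak approximation for random complete intersections over number fields

Let `K` be a number field.  Let `X ⊂ ∏ ℙ^{n i}` run over the complete intersections over `K` of
`r ≥ 1` hypersurfaces of fixed multidegrees `(d j i)`, `0 ≤ j < r`, ordered by the size of their
coefficients, where all `n i ≥ 1`, all `d j i ≥ 1` and, for some block `i₀`, `∑ j, d j i₀ ≤ n i₀`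
(then the smooth ones are rationally connected) and moreover `d j i₀ ≥ 2` for all `j` in case
`r ≥ 2`; only plane conics are left out.  One hundred per cent of the smooth everywhere locally
soluble ones have a `K`-rational point and satisfy weak approximation at a set of places and with a
precision which grow with the height `H`.
-/

namespace Pool.Agent.Results.MP_e426f4_ag.NumberFieldIntersections

open NumberField IsDedekindDomain MvPolynomial Filter Topology

/-- Systems of `r` forms over the ring of integers of `K` such that all archimedean absolute values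
of all coefficients are at most `H`, in the variables `z ⟨i, a⟩`, `0 ≤ a ≤ n i`; the `j`-th form is
homogeneous of degree `d j i` in the block of variables `z ⟨i, 0⟩, …, z ⟨i, n i⟩` for each `i`. -/
def Systems (K : Type) [Field K] [NumberField K] {ι : Type} {r : ℕ} (n : ι → ℕ)
    (d : Fin r → ι → ℕ) (H : ℕ) : Set (Fin r → MvPolynomial (Σ i, Fin (n i + 1)) (𝓞 K)) :=
  {f | ∀ j, (∀ m, (f j).coeff m ≠ 0 → ∀ i, ∑ a, m ⟨i, a⟩ = d j i) ∧
    ∀ m, ∀ w : InfinitePlace K, w (((f j).coeff m : 𝓞 K) : K) ≤ H}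

section
variable {K : Type} [Field K] [NumberField K] {ι : Type} {n : ι → ℕ} {r : ℕ}

/-- The scheme `f = 0` in `∏ ℙ^{n i}` over `K` is a smooth complete intersection of codimension `r`:
the gradients of the forms are linearly independent at every common zero over the algebraic closure. -/
def IsSmooth (f : Fin r → MvPolynomial (Σ i, Fin (n i + 1)) (𝓞 K)) : Prop :=
  ∀ z : (Σ i, Fin (n i + 1)) → AlgebraicClosure K, (∀ i, ∃ a, z ⟨i, a⟩ ≠ 0) →
    (∀ j, aeval z (f j) = 0) →
    LinearIndependent (AlgebraicClosure K) fun j : Fin r => fun v => aeval z (pderiv v (f j))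

/-- The scheme `f = 0` in `∏ ℙ^{n i}` has a point over the field `L`. -/
def HasPoint (f : Fin r → MvPolynomial (Σ i, Fin (n i + 1)) (𝓞 K)) (L : Type) [Field L]
    [Algebra (𝓞 K) L] : Prop :=
  ∃ z : (Σ i, Fin (n i + 1)) → L, (∀ i, ∃ a, z ⟨i, a⟩ ≠ 0) ∧ ∀ j, aeval z (f j) = 0

/-- The scheme `f = 0` has points over all completions of `K`. -/
def EverywhereLocallySoluble (f : Fin r → MvPolynomial (Σ i, Fin (n i + 1)) (𝓞 K)) : Prop :=
  (∀ v : HeightOneSpectrum (𝓞 K), HasPoint f (v.adicCompletion K)) ∧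
    ∀ w : InfinitePlace K, HasPoint f w.Completion

/-- `y` represents a point of `f = 0` over the completion at the finite place `v`, with normalised
coordinates: all have absolute value at most `1`, and one of each block has absolute value `1`. -/
def IsPointF (f : Fin r → MvPolynomial (Σ i, Fin (n i + 1)) (𝓞 K)) (v : HeightOneSpectrum (𝓞 K))
    (y : (Σ i, Fin (n i + 1)) → v.adicCompletion K) : Prop :=
  (∀ u, Valued.v (y u) ≤ 1) ∧ (∀ i, ∃ a, Valued.v (y ⟨i, a⟩) = 1) ∧ ∀ j, aeval y (f j) = 0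

/-- `x` represents a point of `f = 0` over the completion at the infinite place `w`, with normalised
coordinates: all have absolute value at most `1`, and one of each block has absolute value `1`. -/
def IsPointI (f : Fin r → MvPolynomial (Σ i, Fin (n i + 1)) (𝓞 K)) (w : InfinitePlace K)
    (x : (Σ i, Fin (n i + 1)) → w.Completion) : Prop :=
  (∀ u, ‖x u‖ ≤ 1) ∧ (∀ i, ∃ a, ‖x ⟨i, a⟩‖ = 1) ∧ ∀ j, aeval x (f j) = 0

/-- Weak approximation at level `W`: for any points `y v` over the completions at the primes `v`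
above the prime numbers `p ≤ W` (those which contain the product of these `p`) and `x w` over the
completions at all infinite places there is one `K`-rational point `z` (in integral coordinates)
which, after scaling each block of coordinates over the completion, is congruent to `y v` modulo the
`W`-th power of `v` and closer than `1 / (W + 1)` to `x w` for all these `v` and `w`. -/
def WeakApproximation (f : Fin r → MvPolynomial (Σ i, Fin (n i + 1)) (𝓞 K)) (W : ℕ) : Prop :=
  ∀ (y : ∀ v : HeightOneSpectrum (𝓞 K), (Σ i, Fin (n i + 1)) → v.adicCompletion K)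
    (x : ∀ w : InfinitePlace K, (Σ i, Fin (n i + 1)) → w.Completion),
    (∀ v, (primorial W : 𝓞 K) ∈ v.asIdeal → IsPointF f v (y v)) → (∀ w, IsPointI f w (x w)) →
    ∃ z : (Σ i, Fin (n i + 1)) → 𝓞 K, (∀ i, ∃ a, z ⟨i, a⟩ ≠ 0) ∧ (∀ j, aeval z (f j) = 0) ∧
      (∀ v : HeightOneSpectrum (𝓞 K), (primorial W : 𝓞 K) ∈ v.asIdeal →
        ∀ i, ∃ g : v.adicCompletion K, g ≠ 0 ∧
          ∀ a, Valued.v (g * algebraMap (𝓞 K) (v.adicCompletion K) (z ⟨i, a⟩) - y v ⟨i, a⟩) ≤
            WithZero.exp (-(W : ℤ))) ∧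
      ∀ (w : InfinitePlace K) i, ∃ g : w.Completion, g ≠ 0 ∧
        ∀ a, ‖g * algebraMap (𝓞 K) w.Completion (z ⟨i, a⟩) - x w ⟨i, a⟩‖ ≤ 1 / ((W : ℝ) + 1)

end

section transfer
variable {K : Type} [Field K] [NumberField K]
variable {ι : Type} [Fintype ι] [DecidableEq ι] {n : ι → ℕ} {r : ℕ} {d : Fin r → ι → ℕ}

open NFHP GenHP CIPHP NKPHP NKWHP

/-- the system of polynomials with given coefficient vectors -/
noncomputable def toPolys (A : PSys n d (𝓞 K)) :
    Fin r → MvPolynomial (Σ i, Fin (n i + 1)) (𝓞 K) :=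
  fun j => kPoly (A j)

omit [NumberField K] in
theorem toPolys_injective : Function.Injective (toPolys (K := K) (n := n) (d := d)) := by
  intro A B h
  funext j
  exact kPoly_injective (congrFun h j)

theorem toPolys_mem (A : PSys n d (𝓞 K)) (H : ℕ) :
    toPolys A ∈ Systems K n d H ↔ A ∈ HouseP K n d H := by
  have h := fun j : Fin r => kPoly_forall_coeff (A j)
    (fun a : 𝓞 K => ∀ w : InfinitePlace K, w (a : K) ≤ H) (fun w => by simp)
  have h2 : A ∈ HouseP K n d H ↔ ∀ j t, ∀ w : InfinitePlace K, w (A j t : K) ≤ H := by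
    show (∀ j t w, ‖sg w (A j t)‖ ≤ (H : ℝ)) ↔ _
    simp only [norm_sg]
  rw [h2]
  constructor
  · intro hf j
    exact (h j).mp (hf j).2
  · intro hA j
    exact ⟨kPoly_isMultiHom (A j), (h j).mpr (hA j)⟩

theorem exists_toPolys {f : Fin r → MvPolynomial (Σ i, Fin (n i + 1)) (𝓞 K)} {H : ℕ}
    (hf : f ∈ Systems K n d H) : ∃ A : PSys n d (𝓞 K), toPolys A = f := by
  choose A hA using fun j => exists_kPoly (f j) (hf j).1
  exact ⟨A, funext hA⟩

omit [NumberField K] in
theorem isSmooth_iff (A : PSys n d (𝓞 K)) : IsSmooth (toPolys A) ↔ PSmoothK A := by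
  simp only [IsSmooth, PSmoothK, BNZ, toPolys, aeval_pderiv_kPoly, aeval_kPoly]

omit [NumberField K] in
theorem hasPoint_iff (A : PSys n d (𝓞 K)) : HasPoint (toPolys A) K ↔ PSolubleK A := by
  simp only [HasPoint, PSolubleK, BNZ, toPolys, aeval_kPoly]

theorem wa_iff (A : PSys n d (𝓞 K)) (W : ℕ) : WeakApproximation (toPolys A) W ↔ PWAK W A := by
  simp only [WeakApproximation, IsPointF, IsPointI, PWAK, ZeroF, ZeroI, toPolys, aeval_kPoly]
  rfl

theorem els_iff (A : PSys n d (𝓞 K)) : EverywhereLocallySoluble (toPolys A) ↔ PELSK A := by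
  simp only [EverywhereLocallySoluble, HasPoint, PELSK, BNZ, toPolys, aeval_kPoly]

/-- transfer of counts -/
theorem ncard_transfer (H : ℕ) (p : (Fin r → MvPolynomial (Σ i, Fin (n i + 1)) (𝓞 K)) → Prop)
    (q : PSys n d (𝓞 K) → Prop) (hpq : ∀ A, p (toPolys A) ↔ q A) :
    Set.ncard {f | f ∈ Systems K n d H ∧ p f} =
      Set.ncard {A : PSys n d (𝓞 K) | A ∈ HouseP K n d H ∧ q A} := by
  rw [← Set.ncard_image_of_injective _ (toPolys_injective (K := K) (n := n) (d := d))]
  congr 1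
  ext f
  constructor
  · rintro ⟨hf, hpf⟩
    obtain ⟨A, rfl⟩ := exists_toPolys hf
    exact ⟨A, ⟨(toPolys_mem A H).mp hf, (hpq A).mp hpf⟩, rfl⟩
  · rintro ⟨A, ⟨hA, hq⟩, rfl⟩
    exact ⟨(toPolys_mem A H).mpr hA, (hpq A).mpr hq⟩

theorem ncard_systems (H : ℕ) : (Systems K n d H).ncard = (HouseP K n d H).ncard := by
  have h := ncard_transfer (K := K) (n := n) (d := d) H (fun _ => True) (fun _ => True)
    (fun _ => Iff.rfl)
  simp only [and_true] at h
  exact h

theorem ncard_house_pos (H : ℕ) : 0 < ((HouseP K n d H).ncard : ℝ) := by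
  have h0 : (HouseP K n d H).Nonempty := ⟨fun _ _ => 0, fun j t w => by
    rw [map_zero, norm_zero]
    exact Nat.cast_nonneg H⟩
  exact_mod_cast (Set.ncard_pos (houseP_finite (H : ℝ))).mpr h0

/-- from coefficient vectors to polynomials -/
theorem of_pfinal (h : PFinal K n d) (hwa : ∃ W : ℕ → ℕ, Tendsto W atTop atTop ∧
      ∀ eps : ℝ, 0 < eps → ∀ᶠ H : ℕ in atTop,
      (Set.ncard {A : PSys n d (𝓞 K) | A ∈ HouseP K n d H ∧ PELSK A ∧ ¬ PWAK (W H) A} : ℝ) ≤
        eps * ((HouseP K n d H).ncard : ℝ)) :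
    (∃ c : ℝ, 0 < c ∧ ∀ᶠ H : ℕ in atTop, c * ((Systems K n d H).ncard : ℝ) ≤
      (Set.ncard {f | f ∈ Systems K n d H ∧ IsSmooth f ∧ EverywhereLocallySoluble f} : ℝ)) ∧
    ∃ W : ℕ → ℕ, Tendsto W atTop atTop ∧ Tendsto (fun H : ℕ =>
      (Set.ncard {f | f ∈ Systems K n d H ∧ IsSmooth f ∧ HasPoint f K ∧
        WeakApproximation f (W H)} : ℝ) /
      (Set.ncard {f | f ∈ Systems K n d H ∧ IsSmooth f ∧ EverywhereLocallySoluble f} : ℝ))
      atTop (𝓝 1) := by
  obtain ⟨⟨c, hc, hpos⟩, hexc, -⟩ := h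
  obtain ⟨W, hW, hwa⟩ := hwa
  have hf : ∀ H : ℕ, (HouseP K n d H).Finite := fun H => houseP_finite H
  have t1 : ∀ H : ℕ, Set.ncard {f | f ∈ Systems K n d H ∧ IsSmooth f ∧
      EverywhereLocallySoluble f} =
      Set.ncard {A : PSys n d (𝓞 K) | A ∈ HouseP K n d H ∧ PSmoothK A ∧ PELSK A} := fun H =>
    ncard_transfer H _ _ fun A => by rw [isSmooth_iff, els_iff]
  have t2 : ∀ H : ℕ, Set.ncard {f | f ∈ Systems K n d H ∧ IsSmooth f ∧ HasPoint f K ∧
      WeakApproximation f (W H)} =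
      Set.ncard {A : PSys n d (𝓞 K) | A ∈ HouseP K n d H ∧ PSmoothK A ∧ PSolubleK A ∧
        PWAK (W H) A} := fun H =>
    ncard_transfer H _ _ fun A => by rw [isSmooth_iff, hasPoint_iff, wa_iff]
  have hle0 : ∀ H : ℕ, Set.ncard {A : PSys n d (𝓞 K) | A ∈ HouseP K n d H ∧ PSmoothK A ∧
        PSolubleK A} ≤ Set.ncard {A : PSys n d (𝓞 K) | A ∈ HouseP K n d H ∧ PSmoothK A ∧
          PELSK A} := fun H =>
    Set.ncard_le_ncard (fun A hA => ⟨hA.1, hA.2.1, pels_of_solubleK A hA.2.2⟩)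
      ((hf H).subset fun A hA => hA.1)
  have hle : ∀ H : ℕ, Set.ncard {A : PSys n d (𝓞 K) | A ∈ HouseP K n d H ∧ PSmoothK A ∧
        PSolubleK A ∧ PWAK (W H) A} ≤ Set.ncard {A : PSys n d (𝓞 K) | A ∈ HouseP K n d H ∧
          PSmoothK A ∧ PELSK A} := fun H =>
    Set.ncard_le_ncard (fun A hA => ⟨hA.1, hA.2.1, pels_of_solubleK A hA.2.2.1⟩)
      ((hf H).subset fun A hA => hA.1)
  have hadd : ∀ H : ℕ, Set.ncard {A : PSys n d (𝓞 K) | A ∈ HouseP K n d H ∧ PSmoothK A ∧
          PELSK A} ≤ Set.ncard {A : PSys n d (𝓞 K) | A ∈ HouseP K n d H ∧ PSmoothK A ∧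
          PSolubleK A ∧ PWAK (W H) A} + (Set.ncard {A : PSys n d (𝓞 K) |
          A ∈ HouseP K n d H ∧ PELSK A ∧ ¬ PSolubleK A} + Set.ncard {A : PSys n d (𝓞 K) |
          A ∈ HouseP K n d H ∧ PELSK A ∧ ¬ PWAK (W H) A}) := fun H => by
    refine (Set.ncard_le_ncard ?_ (((hf H).subset fun A hA => hA.1).union
      (((hf H).subset fun A hA => hA.1).union ((hf H).subset fun A hA => hA.1)))).trans
      ((Set.ncard_union_le _ _).trans (Nat.add_le_add_left (Set.ncard_union_le _ _) _))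
    intro A hA
    by_cases h : PSolubleK A
    · by_cases h' : PWAK (W H) A
      · exact Or.inl ⟨hA.1, hA.2.1, h, h'⟩
      · exact Or.inr (Or.inr ⟨hA.1, hA.2.2, h'⟩)
    · exact Or.inr (Or.inl ⟨hA.1, hA.2.2, h⟩)
  have hpos' : ∀ᶠ H : ℕ in atTop, c * ((HouseP K n d H).ncard : ℝ) ≤
      (Set.ncard {A : PSys n d (𝓞 K) | A ∈ HouseP K n d H ∧ PSmoothK A ∧ PELSK A} : ℝ) := by
    filter_upwards [hpos] with H h1
    exact h1.trans (by exact_mod_cast hle0 H)
  refine ⟨⟨c, hc, ?_⟩, W, hW, ?_⟩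
  · filter_upwards [hpos'] with H hH
    rw [ncard_systems, t1]
    exact hH
  · have h5 := NKHP.ratio_tendsto
      (a := fun H : ℕ => ((HouseP K n d H).ncard : ℝ))
      (S := fun H : ℕ => (Set.ncard {A : PSys n d (𝓞 K) | A ∈ HouseP K n d H ∧ PSmoothK A ∧
        PELSK A} : ℝ))
      (T := fun H : ℕ => (Set.ncard {A : PSys n d (𝓞 K) | A ∈ HouseP K n d H ∧ PSmoothK A ∧
        PSolubleK A ∧ PWAK (W H) A} : ℝ))
      (N := fun H : ℕ => (Set.ncard {A : PSys n d (𝓞 K) |
        A ∈ HouseP K n d H ∧ PELSK A ∧ ¬ PSolubleK A} : ℝ) + (Set.ncard {A : PSys n d (𝓞 K) |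
        A ∈ HouseP K n d H ∧ PELSK A ∧ ¬ PWAK (W H) A} : ℝ))
      ⟨c, hc, hpos'⟩ (Filter.Eventually.of_forall fun H => ncard_house_pos H)
      (fun H => by exact_mod_cast hle H) (fun H => by exact_mod_cast hadd H)
      (fun eps heps => by
        filter_upwards [hexc (eps / 2) (by positivity), hwa (eps / 2) (by positivity)]
          with H h1 h2
        linarith)
    refine h5.congr fun H => ?_
    rw [t1, t2]

end transfer

/-- **The Hasse principle and weak approximation for almost all rationally connected complete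
intersections of `r ≥ 1` hypersurfaces in products of projective spaces over a number field.** -/
theorem result (K : Type) [Field K] [NumberField K] {ι : Type} [Fintype ι] (n : ι → ℕ) (r : ℕ)
    (d : Fin r → ι → ℕ) (hr : 1 ≤ r) (hn : ∀ i, 1 ≤ n i) (hd : ∀ j i, 1 ≤ d j i) (i₀ : ι)
    (h₀ : ∑ j, d j i₀ ≤ n i₀) (h₁ : 2 ≤ r → ∀ j, 2 ≤ d j i₀)
    -- not plane conics
    (h₂ : ¬ (r = 1 ∧ n i₀ = 2 ∧ (∀ j, d j i₀ = 2) ∧ ∀ i, i = i₀)) :
    -- a positive proportion of all systems defines a smooth complete intersection which is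
    -- everywhere locally soluble
    (∃ c : ℝ, 0 < c ∧ ∀ᶠ H : ℕ in atTop, c * ((Systems K n d H).ncard : ℝ) ≤
      (Set.ncard {f | f ∈ Systems K n d H ∧ IsSmooth f ∧ EverywhereLocallySoluble f} : ℝ)) ∧
    -- one hundred per cent of these have a rational point and satisfy weak approximation at a level
    -- which tends to infinity with `H`
    ∃ W : ℕ → ℕ, Tendsto W atTop atTop ∧ Tendsto (fun H : ℕ =>
      (Set.ncard {f | f ∈ Systems K n d H ∧ IsSmooth f ∧ HasPoint f K ∧
        WeakApproximation f (W H)} : ℝ) /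
      (Set.ncard {f | f ∈ Systems K n d H ∧ IsSmooth f ∧ EverywhereLocallySoluble f} : ℝ))
      atTop (𝓝 1) := by
  classical
  exact of_pfinal (NKPHP.pfinal K n d hr hn hd i₀ h₀ h₁ h₂)
    (NKWHP.final_W K n d hr hn hd i₀ h₀ h₁ h₂)

end Pool.Agent.Results.MP_e426f4_ag.NumberFieldIntersections
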