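import Pool.Agent.Lib.MP_e426f4_ag.M.Poly
import Pool.Agent.Lib.MP_e426f4_ag.RC.Final
import Pool.Agent.Lib.MP_e426f4_ag.RCW.Diag
import Pool.Agent.Lib.MP_e426f4_ag.RCW.Final

/-!
# The Hasse principle and weak approximation for random diagonal conic bundles

Let `r ≥ 1` and let `f i j` (`0 ≤ i < r`, `0 ≤ j < 3`) run over the integral multihomogeneous forms of fixed multidegrees `d i j`
(all partial degrees at least `1`, the three multidegrees of each conic congruent modulo `2`) on the product of the projective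
spaces `ℙ^{n l}`, ordered by the size of their coefficients.  Let `X_f` be the bundle of the points `s` with
points `x i` on the `r` conics `f i 0 (s) x₀² + f i 1 (s) x₁² + f i 2 (s) x₂² = 0`, and `U_f` its open part where all
`f i j (s) ≠ 0`.  A positive proportion of the `U_f` is everywhere locally soluble, one hundred per cent of the everywhere
locally soluble ones have a rational point, and there is a function `W → ∞` such that for one hundred per cent of them the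
rational points of `U_f` are dense, up to `1 / (W(H) + 1)`, in the product of the local points of `X_f` over `ℝ` and the `ℚ_p` for
all primes `p ≤ W(H)`.
-/

namespace Pool.Agent.Results.MP_e426f4_ag.RandomConicBundles

open MvPolynomial Filter Topology

section
variable {ι : Type} {n : ι → ℕ} {r : ℕ}

/-- Families of integral forms `f i j`, `i < r`, `j < 3`, with all coefficients in `[-H, H]`, in the variables
`z ⟨l, a⟩`, `0 ≤ a ≤ n l`; the form `f i j` is homogeneous of degree `d i j l` in the block of variables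
`z ⟨l, 0⟩, …, z ⟨l, n l⟩` for each `l`. -/
def Systems (n : ι → ℕ) (d : Fin r → Fin 3 → ι → ℕ) (H : ℕ) :
    Set (Fin r → Fin 3 → MvPolynomial (Σ l, Fin (n l + 1)) ℤ) :=
  {f | ∀ i j, (∀ m, (f i j).coeff m ≠ 0 → ∀ l, ∑ a, m ⟨l, a⟩ = d i j l) ∧ ∀ m, |(f i j).coeff m| ≤ H}

/-- There is a point `s` over the field `K` at which no form vanishes and for which the `r` conics
`f i 0 (s) x₀² + f i 1 (s) x₁² + f i 2 (s) x₂² = 0` have points over `K`. -/
def HasPoint (f : Fin r → Fin 3 → MvPolynomial (Σ l, Fin (n l + 1)) ℤ) (K : Type) [Field K] : Prop :=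
  ∃ s : (Σ l, Fin (n l + 1)) → K, (∀ i j, aeval s (f i j) ≠ 0) ∧
    ∀ i, ∃ x : Fin 3 → K, x ≠ 0 ∧ ∑ j, aeval s (f i j) * x j ^ 2 = 0

/-- Coordinates over `K` of a point of the bundle `X_f`: `s` and `x i`, `i < r`. -/
structure Coord (n : ι → ℕ) (r : ℕ) (K : Type) where
  /-- the coordinates of the base point -/
  s : (Σ l, Fin (n l + 1)) → K
  /-- the coordinates of the points on the conics -/
  x : Fin r → Fin 3 → K

/-- These are coordinates of a point of `X_f` over `K`: all blocks of `s` and all `x i` are nonzero, and the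
`r` equations `f i 0 (s) x₀² + f i 1 (s) x₁² + f i 2 (s) x₂² = 0` hold (some forms may vanish at `s`). -/
def IsPoint (f : Fin r → Fin 3 → MvPolynomial (Σ l, Fin (n l + 1)) ℤ) {K : Type} [Field K]
    (P : Coord n r K) : Prop :=
  (∀ l, ∃ a, P.s ⟨l, a⟩ ≠ 0) ∧ ∀ i, P.x i ≠ 0 ∧ ∑ j, aeval P.s (f i j) * P.x i j ^ 2 = 0

/-- Every block of `s` and every `x i` has sup norm `1`.  Every point has such coordinates: scale the block `l` of `s` by
`c l`, divide `x i j` by the product of the `(c l) ^ ⌊d i j l / 2⌋`, and scale the `x i`. -/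
def Normalised {K : Type} [NormedField K] (P : Coord n r K) : Prop :=
  (∀ l, ‖fun a : Fin (n l + 1) => P.s ⟨l, a⟩‖ = 1) ∧ ∀ i, ‖P.x i‖ = 1

/-- The coordinates of the rational `R` are within `ε` of those of `P`. -/
def Near {K : Type} [NormedField K] (ε : ℝ) (R : Coord n r ℚ) (P : Coord n r K) : Prop :=
  (∀ v, ‖(R.s v : K) - P.s v‖ < ε) ∧ ∀ i j, ‖(R.x i j : K) - P.x i j‖ < ε

/-- There is a rational point at which no form vanishes, and for all points of `X_f` over `ℝ` and over the `ℚ_p`,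
`p ≤ w`, in normalised coordinates there is one rational point of `X_f`, at which no form vanishes, with coordinates
within `ε` of those of all of them. -/
def WeakApproximation (f : Fin r → Fin 3 → MvPolynomial (Σ l, Fin (n l + 1)) ℤ) (w : ℕ) (ε : ℝ) : Prop :=
  HasPoint f ℚ ∧
    ∀ (P : Coord n r ℝ) (Q : ∀ (p : ℕ) [Fact p.Prime], Coord n r ℚ_[p]),
      IsPoint f P → Normalised P →
      (∀ (p : ℕ) [Fact p.Prime], p ≤ w → IsPoint f (Q p) ∧ Normalised (Q p)) →
      ∃ R : Coord n r ℚ, (∀ i j, aeval R.s (f i j) ≠ 0) ∧ IsPoint f R ∧ Near ε R P ∧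
        ∀ (p : ℕ) [Fact p.Prime], p ≤ w → Near ε R (Q p)

/-- There are points over all completions of `ℚ`. -/
def EverywhereLocallySoluble (f : Fin r → Fin 3 → MvPolynomial (Σ l, Fin (n l + 1)) ℤ) : Prop :=
  HasPoint f ℝ ∧ ∀ (p : ℕ) [Fact p.Prime], HasPoint f ℚ_[p]

end

section
variable {ι : Type} [Fintype ι] [DecidableEq ι] {n : ι → ℕ} {r : ℕ} {d : Fin r → Fin 3 → ι → ℕ}

open GenHP CIPHP RcHP TwHP

/-- the multidegrees with the index set `Fin (r * 3)` -/
def dd (d : Fin r → Fin 3 → ι → ℕ) : Fin (r * 3) → ι → ℕ :=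
  fun k => d (finProdFinEquiv.symm k).1 (finProdFinEquiv.symm k).2

omit [Fintype ι] [DecidableEq ι] in
theorem dd_ix (i : Fin r) (j : Fin 3) : dd d (ix i j) = d i j := by
  simp only [dd, ix, Equiv.symm_apply_apply]

theorem ix_symm (k : Fin (r * 3)) : ix (finProdFinEquiv.symm k).1 (finProdFinEquiv.symm k).2 = k :=
  finProdFinEquiv.apply_symm_apply k

theorem mPoly_ix (A : PSys n (dd d) ℤ) (k : Fin (r * 3)) :
    mPoly (A (ix (finProdFinEquiv.symm k).1 (finProdFinEquiv.symm k).2)) = mPoly (A k) := by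
  rw [ix_symm]

/-- the family of polynomials with given coefficient vectors -/
noncomputable def toPolys (A : PSys n (dd d) ℤ) : Fin r → Fin 3 → MvPolynomial (Σ l, Fin (n l + 1)) ℤ :=
  fun i j => mPoly (A (ix i j))

theorem toPolys_injective : Function.Injective (toPolys (n := n) (d := d)) := by
  intro A B h
  funext k
  have h1 : mPoly (A (ix (finProdFinEquiv.symm k).1 (finProdFinEquiv.symm k).2)) =
      mPoly (B (ix (finProdFinEquiv.symm k).1 (finProdFinEquiv.symm k).2)) :=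
    congrFun (congrFun h (finProdFinEquiv.symm k).1) (finProdFinEquiv.symm k).2
  rw [mPoly_ix, mPoly_ix] at h1
  exact mPoly_injective h1

theorem toPolys_mem (A : PSys n (dd d) ℤ) (H : ℕ) : toPolys A ∈ Systems n d H ↔ A ∈ pbox n (dd d) H := by
  constructor
  · intro h k t
    have h1 := (h (finProdFinEquiv.symm k).1 (finProdFinEquiv.symm k).2).2
    simp only [toPolys] at h1
    rw [mPoly_ix] at h1
    exact mem_MBox.mp ((mPoly_mem (A k) H).mp ⟨mPoly_isMultiHom (A k), h1⟩) t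
  · intro h i j
    have h1 := (mPoly_mem (A (ix i j)) H).mpr (mem_MBox.mpr (h (ix i j)))
    refine ⟨fun m hm l => ?_, h1.2⟩
    rw [h1.1 m hm l]
    exact congrFun (dd_ix i j) l

theorem exists_toPolys {f : Fin r → Fin 3 → MvPolynomial (Σ l, Fin (n l + 1)) ℤ} {H : ℕ}
    (hf : f ∈ Systems n d H) : ∃ A : PSys n (dd d) ℤ, toPolys A = f := by
  have h1 : ∀ k : Fin (r * 3), ∃ a : MIdx n (dd d k) → ℤ,
      mPoly a = f (finProdFinEquiv.symm k).1 (finProdFinEquiv.symm k).2 := fun k =>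
    exists_mPoly _ (hf (finProdFinEquiv.symm k).1 (finProdFinEquiv.symm k).2).1
  choose A hA using h1
  refine ⟨A, ?_⟩
  funext i j
  simp only [toPolys, hA, ix, Equiv.symm_apply_apply]

theorem iso_iff {K : Type} [Field K] (a : Fin 3 → K) :
    (∃ x : Fin 3 → K, x ≠ 0 ∧ ∑ j, a j * x j ^ 2 = 0) ↔ Iso (a 0) (a 1) (a 2) := by
  constructor
  · rintro ⟨x, hx, h⟩
    rw [Fin.sum_univ_three] at h
    refine ⟨x 0, x 1, x 2, ?_, h⟩
    by_contra hcon
    push Not at hcon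
    apply hx
    funext j
    fin_cases j
    · exact hcon.1
    · exact hcon.2.1
    · exact hcon.2.2
  · rintro ⟨x, y, z, hne, h⟩
    refine ⟨![x, y, z], ?_, ?_⟩
    · intro h0
      have e0 := congrFun h0 0
      have e1 := congrFun h0 1
      have e2 := congrFun h0 2
      simp only [Matrix.cons_val_zero, Matrix.cons_val_one, Matrix.cons_val, Pi.zero_apply] at e0 e1 e2
      rcases hne with h1 | h1 | h1
      · exact h1 e0
      · exact h1 e1
      · exact h1 e2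
    · rw [Fin.sum_univ_three]
      simpa using h

theorem hasPoint_iff (A : PSys n (dd d) ℤ) (K : Type) [Field K] : HasPoint (toPolys A) K ↔
    RcHP.Sol A K := by
  unfold HasPoint RcHP.Sol Fib cst
  refine exists_congr fun s => and_congr ?_ (forall_congr' fun i => ?_)
  · simp only [toPolys, aeval_mPoly]
    constructor
    · intro h k
      have h1 := h (finProdFinEquiv.symm k).1 (finProdFinEquiv.symm k).2
      have h2 : ∀ k k' : Fin (r * 3), k' = k → MF (fun t => (A k' t : K)) s ≠ 0 →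
          MF (fun t => (A k t : K)) s ≠ 0 := by
        rintro k k' rfl h
        exact h
      exact h2 k _ (ix_symm k) h1
    · intro h i j
      exact h (ix i j)
  · rw [iso_iff]
    simp only [toPolys, aeval_mPoly]

theorem els_iff (A : PSys n (dd d) ℤ) : EverywhereLocallySoluble (toPolys A) ↔ ELS A := by
  simp only [EverywhereLocallySoluble, ELS, hasPoint_iff]

omit [DecidableEq ι] [Fintype ι] in
theorem block_ns {K : Type} [NormedField K] (s : (Σ l, Fin (n l + 1)) → K) :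
    (∀ l, ‖fun a : Fin (n l + 1) => s ⟨l, a⟩‖ = 1) ↔ RcWA.NS s := by
  constructor
  · intro h
    refine ⟨fun v => ?_, fun l => ?_⟩
    · have h1 := norm_le_pi_norm (fun a : Fin (n v.1 + 1) => s ⟨v.1, a⟩) v.2
      rw [h v.1] at h1
      exact h1
    · obtain ⟨a, ha⟩ := Finite.exists_max fun a : Fin (n l + 1) => ‖s ⟨l, a⟩‖
      refine ⟨a, le_antisymm ?_ ?_⟩
      · rw [← h l]
        exact norm_le_pi_norm (fun a : Fin (n l + 1) => s ⟨l, a⟩) a
      · rw [← h l]
        exact (pi_norm_le_iff_of_nonneg (norm_nonneg _)).2 ha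
  · rintro ⟨h1, h2⟩ l
    refine le_antisymm ((pi_norm_le_iff_of_nonneg zero_le_one).2 fun a => h1 ⟨l, a⟩) ?_
    obtain ⟨a, ha⟩ := h2 l
    rw [← ha]
    exact norm_le_pi_norm (fun a : Fin (n l + 1) => s ⟨l, a⟩) a

theorem vec_nx {K : Type} [NormedField K] (x : Fin r → Fin 3 → K) :
    (∀ i, ‖x i‖ = 1) ↔ RcWA.NX x := by
  refine forall_congr' fun i => ?_
  constructor
  · intro h
    refine ⟨fun j => ?_, ?_⟩
    · rw [← h]
      exact norm_le_pi_norm (x i) j
    · obtain ⟨a, ha⟩ := Finite.exists_max fun a : Fin 3 => ‖x i a‖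
      refine ⟨a, le_antisymm ?_ ?_⟩
      · rw [← h]
        exact norm_le_pi_norm (x i) a
      · rw [← h]
        exact (pi_norm_le_iff_of_nonneg (norm_nonneg _)).2 ha
  · rintro ⟨h1, a, ha⟩
    refine le_antisymm ((pi_norm_le_iff_of_nonneg zero_le_one).2 h1) ?_
    rw [← ha]
    exact norm_le_pi_norm (x i) a

theorem onX_iff (A : PSys n (dd d) ℤ) {K : Type} [Field K] (s : (Σ l, Fin (n l + 1)) → K)
    (x : Fin r → Fin 3 → K) : RcWA.OnX (cst K A) s x ↔
      ∀ i, ∑ j, aeval s (toPolys A i j) * x i j ^ 2 = 0 := by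
  refine forall_congr' fun i => ?_
  simp only [toPolys, aeval_mPoly]
  exact Iff.rfl

/-- normalised points -/
theorem pt_iff (A : PSys n (dd d) ℤ) {K : Type} [NormedField K] (P : Coord n r K) :
    (IsPoint (toPolys A) P ∧ Normalised P) ↔
      (RcWA.NS P.s ∧ RcWA.NX P.x ∧ RcWA.OnX (cst K A) P.s P.x) := by
  unfold Normalised IsPoint
  rw [block_ns, vec_nx, onX_iff]
  constructor
  · rintro ⟨⟨-, h2⟩, h3, h4⟩
    exact ⟨h3, h4, fun i => (h2 i).2⟩
  · rintro ⟨h3, h4, h2⟩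
    refine ⟨⟨fun l => ?_, fun i => ⟨fun h0 => ?_, h2 i⟩⟩, h3, h4⟩
    · obtain ⟨a, ha⟩ := h3.2 l
      refine ⟨a, fun h0 => ?_⟩
      rw [h0, norm_zero] at ha
      exact zero_ne_one ha
    · obtain ⟨a, ha⟩ := (h4 i).2
      rw [h0, Pi.zero_apply, norm_zero] at ha
      exact zero_ne_one ha

/-- Every point of `X_f` over a normed field has normalised coordinates. -/
theorem exists_normalised (hpar : ∀ i j j' l, d i j l % 2 = d i j' l % 2) (A : PSys n (dd d) ℤ)
    {K : Type} [NormedField K] (P : Coord n r K) (hP : IsPoint (toPolys A) P) :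
    ∃ (c : ι → K) (m : Fin r → K) (P' : Coord n r K), (∀ l, c l ≠ 0) ∧ (∀ i, m i ≠ 0) ∧
      (∀ v, P'.s v = c v.1 * P.s v) ∧
      (∀ i j, P'.x i j * ∏ l, c l ^ (d i j l / 2) = m i * P.x i j) ∧
      IsPoint (toPolys A) P' ∧ Normalised P' := by
  classical
  obtain ⟨hs, hx⟩ := hP
  have hs' : ∀ l, ∃ c : K, c ≠ 0 ∧ (∀ a, ‖c * P.s ⟨l, a⟩‖ ≤ 1) ∧ ∃ a, ‖c * P.s ⟨l, a⟩‖ = 1 := by
    intro l
    obtain ⟨a, ha⟩ := Finite.exists_max fun a : Fin (n l + 1) => ‖P.s ⟨l, a⟩‖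
    obtain ⟨b, hb⟩ := hs l
    have h0 : 0 < ‖P.s ⟨l, a⟩‖ := lt_of_lt_of_le (norm_pos_iff.2 hb) (ha b)
    refine ⟨(P.s ⟨l, a⟩)⁻¹, inv_ne_zero (norm_pos_iff.1 h0), fun b => ?_, a, ?_⟩
    · rw [norm_mul, norm_inv, inv_mul_le_one₀ h0]
      exact ha b
    · rw [norm_mul, norm_inv, inv_mul_cancel₀ h0.ne']
  choose c hc hc1 hc2 using hs'
  set g : Fin r → Fin 3 → K := fun i j => ∏ l, c l ^ (d i j l / 2) with hg
  have hg0 : ∀ i j, g i j ≠ 0 := fun i j => Finset.prod_ne_zero_iff.2 fun l _ => pow_ne_zero _ (hc l)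
  have hx' : ∀ i, ∃ m : K, m ≠ 0 ∧ (∀ j, ‖m * P.x i j / g i j‖ ≤ 1) ∧ ∃ j, ‖m * P.x i j / g i j‖ = 1 := by
    intro i
    obtain ⟨a, ha⟩ := Finite.exists_max fun j : Fin 3 => ‖P.x i j / g i j‖
    obtain ⟨b, hb⟩ : ∃ b, P.x i b ≠ 0 := by
      by_contra hcon
      push Not at hcon
      exact (hx i).1 (funext hcon)
    have h0 : 0 < ‖P.x i a / g i a‖ :=
      lt_of_lt_of_le (norm_pos_iff.2 (div_ne_zero hb (hg0 i b))) (ha b)
    refine ⟨(P.x i a / g i a)⁻¹, inv_ne_zero (norm_pos_iff.1 h0), fun b => ?_, a, ?_⟩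
    · rw [mul_div_assoc, norm_mul, norm_inv, inv_mul_le_one₀ h0]
      exact ha b
    · rw [mul_div_assoc, norm_mul, norm_inv, inv_mul_cancel₀ h0.ne']
  choose m hm hm1 hm2 using hx'
  have hne : ∀ (P' : Coord n r K), RcWA.NS P'.s → RcWA.NX P'.x →
      RcWA.OnX (cst K A) P'.s P'.x → IsPoint (toPolys A) P' ∧ Normalised P' :=
    fun P' h1 h2 h3 => (pt_iff A P').2 ⟨h1, h2, h3⟩
  obtain ⟨h1, h2⟩ := hne ⟨fun v => c v.1 * P.s v, fun i j => m i * P.x i j / g i j⟩
    ⟨fun v => hc1 v.1 v.2, fun l => hc2 l⟩ (fun i => ⟨hm1 i, hm2 i⟩) (by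
      rw [RcWA.OnX]
      intro i
      have h4 := (onX_iff A P.s P.x).2 (fun i => (hx i).2) i
      have h5 : ∀ j, MF (cst K A (ix i j)) (fun v : MVar n => c v.1 * P.s v) *
          (m i * P.x i j / g i j) ^ 2 = (m i ^ 2 * ∏ l, c l ^ (d i 0 l % 2)) *
            (MF (cst K A (ix i j)) P.s * P.x i j ^ 2) := by
        intro j
        rw [MF_scale]
        have h6 : ∏ l, c l ^ dd d (ix i j) l = (∏ l, c l ^ (d i 0 l % 2)) * g i j ^ 2 := by
          rw [dd_ix, hg]
          simp only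
          rw [← Finset.prod_pow, ← Finset.prod_mul_distrib]
          refine Finset.prod_congr rfl fun l _ => ?_
          rw [← pow_mul, ← pow_add]
          congr 1
          rw [hpar i 0 j l]
          omega
        rw [h6]
        have := hg0 i j
        field_simp
      rw [Finset.sum_congr rfl fun j _ => h5 j, ← Finset.mul_sum, h4, mul_zero])
  refine ⟨c, m, _, hc, hm, fun v => rfl, fun i j => ?_, h1, h2⟩
  exact div_mul_cancel₀ _ (hg0 i j)

/-- the blocks of a point with a nonzero value are nonzero -/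
theorem block_ne {K : Type} [Field K] {e : ι → ℕ} (he : ∀ l, 1 ≤ e l) (A : MIdx n e → K)
    (s : (Σ l, Fin (n l + 1)) → K) (h : MF A s ≠ 0) (l : ι) : ∃ a, s ⟨l, a⟩ ≠ 0 := by
  by_contra hc
  push Not at hc
  apply h
  have h1 := MF_scale (fun k => if k = l then (0 : K) else 1) A s
  have h2 : (fun v : MVar n => (if v.1 = l then (0 : K) else 1) * s v) = s := by
    funext v
    obtain ⟨k, a⟩ := v
    by_cases hk : k = l
    · subst hk
      simp [hc a]
    · simp [hk]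
  rw [h2] at h1
  rw [h1, Finset.prod_eq_zero (Finset.mem_univ l), zero_mul]
  simp only [if_true]
  exact zero_pow (by have := he l; omega)

theorem val_ne (A : PSys n (dd d) ℤ) {K : Type} [Field K] (s : (Σ l, Fin (n l + 1)) → K) :
    (∀ i j, aeval s (toPolys A i j) ≠ 0) ↔ ∀ j, MF (cst K A j) s ≠ 0 := by
  simp only [toPolys, aeval_mPoly]
  constructor
  · intro h k
    have h1 := h (finProdFinEquiv.symm k).1 (finProdFinEquiv.symm k).2
    have h2 : ∀ k k' : Fin (r * 3), k' = k → MF (fun t => (A k' t : K)) s ≠ 0 →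
        MF (fun t => (A k t : K)) s ≠ 0 := by
      rintro k k' rfl h
      exact h
    exact h2 k _ (ix_symm k) h1
  · intro h i j
    exact h (ix i j)

theorem wa_iff (hr : 1 ≤ r) (hd : ∀ k l, 1 ≤ dd d k l) (A : PSys n (dd d) ℤ) (w : ℕ) (ε : ℝ) :
    WeakApproximation (toPolys A) w ε ↔ RcHP.Sol A ℚ ∧ RcWA.WAc w ε A := by
  unfold WeakApproximation
  rw [hasPoint_iff]
  refine and_congr_right fun _ => ?_
  constructor
  · intro h s x sp xp hs hx hsx hp
    obtain ⟨R, h1, h2, h3, h4⟩ := h ⟨s, x⟩ (fun p _ => ⟨sp p, xp p⟩)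
      ((pt_iff A ⟨s, x⟩).2 ⟨hs, hx, hsx⟩).1 ((pt_iff A ⟨s, x⟩).2 ⟨hs, hx, hsx⟩).2
      (fun p _ hpw => (pt_iff A ⟨sp p, xp p⟩).2 (hp p hpw))
    refine ⟨R.s, R.x, (val_ne A R.s).1 h1, fun i => (h2.2 i).1,
      (onX_iff A R.s R.x).2 fun i => (h2.2 i).2, h3.1, h3.2, fun p _ hpw => h4 p hpw⟩
  · intro h P Q hP hPn hQ
    obtain ⟨hs, hx, hsx⟩ := (pt_iff A P).1 ⟨hP, hPn⟩
    obtain ⟨S, X, h1, h2, h3, h4, h5, h6⟩ := h P.s P.x (fun p _ => (Q p).s) (fun p _ => (Q p).x)
      hs hx hsx (fun p _ hpw => (pt_iff A (Q p)).1 (hQ p hpw))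
    have hj : 0 < r * 3 := by omega
    refine ⟨⟨S, X⟩, (val_ne A S).2 h1, ⟨fun l => ?_, fun i => ⟨h2 i, ?_⟩⟩, ⟨h4, h5⟩,
      fun p _ hpw => h6 p hpw⟩
    · exact block_ne (hd ⟨0, hj⟩) _ S (h1 ⟨0, hj⟩) l
    · exact (onX_iff A S X).1 h3 i

/-- transfer of counts -/
theorem ncard_transfer (H : ℕ) (p : (Fin r → Fin 3 → MvPolynomial (Σ l, Fin (n l + 1)) ℤ) → Prop)
    (q : PSys n (dd d) ℤ → Prop) (hpq : ∀ A, p (toPolys A) ↔ q A) :
    Set.ncard {f | f ∈ Systems n d H ∧ p f} =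
      Set.ncard {A : PSys n (dd d) ℤ | A ∈ pbox n (dd d) H ∧ q A} := by
  rw [← Set.ncard_image_of_injective _ (toPolys_injective (n := n) (d := d))]
  congr 1
  ext f
  constructor
  · rintro ⟨hf, hpf⟩
    obtain ⟨A, rfl⟩ := exists_toPolys hf
    exact ⟨A, ⟨(toPolys_mem A H).mp hf, (hpq A).mp hpf⟩, rfl⟩
  · rintro ⟨A, ⟨hA, hq⟩, rfl⟩
    exact ⟨(toPolys_mem A H).mpr hA, (hpq A).mpr hq⟩

theorem ncard_systems (n : ι → ℕ) (d : Fin r → Fin 3 → ι → ℕ) (H : ℕ) :
    (Systems n d H).ncard = (2 * H + 1) ^ NP n (dd d) := by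
  have h := ncard_transfer (n := n) (d := d) H (fun _ => True) (fun _ => True) (fun _ => Iff.rfl)
  simp only [and_true] at h
  have e1 : {f | f ∈ Systems n d H} = Systems n d H := rfl
  have e2 : {A : PSys n (dd d) ℤ | A ∈ pbox n (dd d) H} = pbox n (dd d) H := rfl
  rw [e1, e2, ncard_pbox] at h
  exact h

end

open GenHP CIPHP RcHP TwHP in
/-- **The Hasse principle and weak approximation for almost all diagonal conic bundles over products of
projective spaces.** -/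
theorem result {ι : Type} [Fintype ι] [Nonempty ι] (n : ι → ℕ) (r : ℕ) (d : Fin r → Fin 3 → ι → ℕ)
    (hr : 1 ≤ r) (hn : ∀ l, 1 ≤ n l) (hd : ∀ i j l, 1 ≤ d i j l)
    (hpar : ∀ i j j' l, d i j l % 2 = d i j' l % 2) :
    -- a positive proportion of all families is everywhere locally soluble
    (∃ c : ℝ, 0 < c ∧ ∀ᶠ H : ℕ in atTop, c * ((Systems n d H).ncard : ℝ) ≤
      (Set.ncard {f | f ∈ Systems n d H ∧ EverywhereLocallySoluble f} : ℝ)) ∧
    -- one hundred per cent of these have a rational point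
    Tendsto (fun H : ℕ => (Set.ncard {f | f ∈ Systems n d H ∧ HasPoint f ℚ} : ℝ) /
      (Set.ncard {f | f ∈ Systems n d H ∧ EverywhereLocallySoluble f} : ℝ)) atTop (𝓝 1) ∧
    -- one hundred per cent of these satisfy weak approximation, up to `1 / (W(H) + 1)`
    ∃ W : ℕ → ℕ, Tendsto W atTop atTop ∧
      Tendsto (fun H : ℕ => (Set.ncard {f | f ∈ Systems n d H ∧ EverywhereLocallySoluble f ∧
          WeakApproximation f (W H) (1 / (W H + 1))} : ℝ) /
        (Set.ncard {f | f ∈ Systems n d H ∧ EverywhereLocallySoluble f} : ℝ)) atTop (𝓝 1) := by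
  classical
  obtain ⟨i0⟩ := (inferInstance : Nonempty ι)
  have hd' : ∀ k i, 1 ≤ dd d k i := fun k i => hd _ _ i
  have hpar' : EqPar (dd d) := by
    intro i j j' l
    rw [dd_ix, dd_ix]
    exact hpar i j j' l
  obtain ⟨⟨c, hc, hpos⟩, hex⟩ := RcHP.final (n := n) (d := dd d) hr hn hd' hpar' i0
  have t1 : ∀ H, Set.ncard {f | f ∈ Systems n d H ∧ EverywhereLocallySoluble f} =
      Set.ncard {A : PSys n (dd d) ℤ | A ∈ pbox n (dd d) H ∧ ELS A} := fun H =>
    ncard_transfer H _ _ fun A => els_iff A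
  have t2 : ∀ H, Set.ncard {f | f ∈ Systems n d H ∧ HasPoint f ℚ} =
      Set.ncard {A : PSys n (dd d) ℤ | A ∈ pbox n (dd d) H ∧ RcHP.Sol A ℚ} := fun H =>
    ncard_transfer H _ _ fun A => hasPoint_iff A ℚ
  have t3 : ∀ H w, ∀ ε : ℝ, Set.ncard {f | f ∈ Systems n d H ∧ EverywhereLocallySoluble f ∧
      WeakApproximation f w ε} = Set.ncard {A : PSys n (dd d) ℤ | A ∈ pbox n (dd d) H ∧
        ELS A ∧ RcHP.Sol A ℚ ∧ RcWA.WAc w ε A} := fun H w ε =>
    ncard_transfer H _ _ fun A => and_congr (els_iff A) (wa_iff hr hd' A w ε)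
  have hcub : ∀ H : ℕ, ((Systems n d H).ncard : ℝ) = (2 * H + 1) ^ NP n (dd d) := fun H => by
    rw [ncard_systems]; push_cast; rfl
  have hle : ∀ H, Set.ncard {A : PSys n (dd d) ℤ | A ∈ pbox n (dd d) H ∧ RcHP.Sol A ℚ} ≤
      Set.ncard {A : PSys n (dd d) ℤ | A ∈ pbox n (dd d) H ∧ ELS A} := fun H =>
    Set.ncard_le_ncard (fun A hA => ⟨hA.1, els_of_sol A hA.2⟩) (pbox_finite H _)
  have hadd : ∀ (H : ℕ) (P : PSys n (dd d) ℤ → Prop),
      Set.ncard {A : PSys n (dd d) ℤ | A ∈ pbox n (dd d) H ∧ ELS A} ≤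
      Set.ncard {A : PSys n (dd d) ℤ | A ∈ pbox n (dd d) H ∧ ELS A ∧ P A} +
      Set.ncard {A : PSys n (dd d) ℤ | A ∈ pbox n (dd d) H ∧ ELS A ∧ ¬ P A} := fun H P => by
    refine (Set.ncard_le_ncard ?_ ((pbox_finite H _).union (pbox_finite H _))).trans
      (Set.ncard_union_le _ _)
    intro A hA
    by_cases h : P A
    · exact Or.inl ⟨hA.1, hA.2, h⟩
    · exact Or.inr ⟨hA.1, hA.2, h⟩
  have hpos' : ∀ᶠ H : ℕ in atTop, c * (2 * (H : ℝ) + 1) ^ NP n (dd d) ≤
      (Set.ncard {A : PSys n (dd d) ℤ | A ∈ pbox n (dd d) H ∧ ELS A} : ℝ) := by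
    filter_upwards [hpos] with H hH
    exact hH.trans (by exact_mod_cast hle H)
  -- the exceptional sets of weak approximation
  obtain ⟨W, hW, hWsm⟩ := RcWA.diag_small (fun H : ℕ => pbox n (dd d) H)
    (fun k => {A : PSys n (dd d) ℤ | ELS A ∧ ¬ (RcHP.Sol A ℚ ∧ RcWA.WAc k (1 / (k + 1)) A)})
    (fun H => (2 * (H : ℝ) + 1) ^ NP n (dd d)) (fun H => by positivity) (by
      intro k eps he
      filter_upwards [hex (eps / 2) (by positivity),
        RcWA.final_w (n := n) (d := dd d) hr hn hd' hpar' i0 k (1 / (k + 1)) (by positivity)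
          (eps / 2) (by positivity)] with H h1 h2
      have h3 : Set.ncard {A : PSys n (dd d) ℤ | A ∈ pbox n (dd d) H ∧
          A ∈ {A : PSys n (dd d) ℤ | ELS A ∧
            ¬ (RcHP.Sol A ℚ ∧ RcWA.WAc k (1 / (k + 1)) A)}} ≤
          Set.ncard {A : PSys n (dd d) ℤ | A ∈ pbox n (dd d) H ∧ ELS A ∧ ¬ RcHP.Sol A ℚ} +
          Set.ncard {A : PSys n (dd d) ℤ | A ∈ pbox n (dd d) H ∧ ELS A ∧
            ¬ RcWA.WAc k (1 / (k + 1)) A} := by
        refine (Set.ncard_le_ncard ?_ ((pbox_finite H _).union (pbox_finite H _))).trans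
          (Set.ncard_union_le _ _)
        rintro A ⟨hA, hA1, hA2⟩
        by_cases h : RcHP.Sol A ℚ
        · exact Or.inr ⟨hA, hA1, fun h' => hA2 ⟨h, h'⟩⟩
        · exact Or.inl ⟨hA, hA1, h⟩
      have h4 : (Set.ncard {A : PSys n (dd d) ℤ | A ∈ pbox n (dd d) H ∧
          A ∈ {A : PSys n (dd d) ℤ | ELS A ∧
            ¬ (RcHP.Sol A ℚ ∧ RcWA.WAc k (1 / (k + 1)) A)}} : ℝ) ≤
          (Set.ncard {A : PSys n (dd d) ℤ | A ∈ pbox n (dd d) H ∧ ELS A ∧ ¬ RcHP.Sol A ℚ} : ℝ) +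
          (Set.ncard {A : PSys n (dd d) ℤ | A ∈ pbox n (dd d) H ∧ ELS A ∧
            ¬ RcWA.WAc k (1 / (k + 1)) A} : ℝ) := by exact_mod_cast h3
      exact h4.trans ((add_le_add h1 h2).trans (le_of_eq (by ring))))
  refine ⟨⟨c, hc, ?_⟩, ?_, W, hW, ?_⟩
  · filter_upwards [hpos'] with H hH
    rw [hcub, t1]
    exact hH
  · simp only [t1, t2]
    refine RcWA.ratio_one _ _ (fun H => (2 * (H : ℝ) + 1) ^ NP n (dd d)) c hc
      (fun H => by positivity) hpos' (fun H => by exact_mod_cast hle H) (fun eps he => ?_)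
    filter_upwards [hex eps he] with H h1
    have h2 := hadd H (fun A => RcHP.Sol A ℚ)
    have h3 : Set.ncard {A : PSys n (dd d) ℤ | A ∈ pbox n (dd d) H ∧ ELS A ∧ RcHP.Sol A ℚ} ≤
        Set.ncard {A : PSys n (dd d) ℤ | A ∈ pbox n (dd d) H ∧ RcHP.Sol A ℚ} :=
      Set.ncard_le_ncard (fun A hA => ⟨hA.1, hA.2.2⟩) (pbox_finite H _)
    have h4 : (Set.ncard {A : PSys n (dd d) ℤ | A ∈ pbox n (dd d) H ∧ ELS A} : ℝ) ≤
        (Set.ncard {A : PSys n (dd d) ℤ | A ∈ pbox n (dd d) H ∧ RcHP.Sol A ℚ} : ℝ) +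
        (Set.ncard {A : PSys n (dd d) ℤ | A ∈ pbox n (dd d) H ∧ ELS A ∧
          ¬ RcHP.Sol A ℚ} : ℝ) := by exact_mod_cast h2.trans (Nat.add_le_add_right h3 _)
    linarith
  · simp only [t1, t3]
    refine RcWA.ratio_one _ _ (fun H => (2 * (H : ℝ) + 1) ^ NP n (dd d)) c hc
      (fun H => by positivity) hpos' (fun H => ?_) (fun eps he => ?_)
    · have h1 : Set.ncard {A : PSys n (dd d) ℤ | A ∈ pbox n (dd d) H ∧ ELS A ∧ RcHP.Sol A ℚ ∧
          RcWA.WAc (W H) (1 / (W H + 1)) A} ≤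
          Set.ncard {A : PSys n (dd d) ℤ | A ∈ pbox n (dd d) H ∧ ELS A} :=
        Set.ncard_le_ncard (fun A hA => ⟨hA.1, hA.2.1⟩) (pbox_finite H _)
      exact_mod_cast h1
    · filter_upwards [hWsm eps he] with H h1
      have h2 := hadd H (fun A => RcHP.Sol A ℚ ∧ RcWA.WAc (W H) (1 / (W H + 1)) A)
      have h4 : (Set.ncard {A : PSys n (dd d) ℤ | A ∈ pbox n (dd d) H ∧ ELS A} : ℝ) ≤
          (Set.ncard {A : PSys n (dd d) ℤ | A ∈ pbox n (dd d) H ∧ ELS A ∧
            (RcHP.Sol A ℚ ∧ RcWA.WAc (W H) (1 / (W H + 1)) A)} : ℝ) +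
          (Set.ncard {A : PSys n (dd d) ℤ | A ∈ pbox n (dd d) H ∧ ELS A ∧
            ¬ (RcHP.Sol A ℚ ∧ RcWA.WAc (W H) (1 / (W H + 1)) A)} : ℝ) := by exact_mod_cast h2
      have h5 : (Set.ncard {A : PSys n (dd d) ℤ | A ∈ pbox n (dd d) H ∧ ELS A ∧
            ¬ (RcHP.Sol A ℚ ∧ RcWA.WAc (W H) (1 / (W H + 1)) A)} : ℝ) ≤
          eps * (2 * (H : ℝ) + 1) ^ NP n (dd d) := h1
      linarith

end Pool.Agent.Results.MP_e426f4_ag.RandomConicBundles
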