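import Pool.Agent.Lib.MP_e426f4_ag.WX.Zed
import Pool.Agent.Lib.MP_e426f4_ag.WX.Diag

/-!
# Rational points on almost all twists of fibrations into products of conics

`f i`, `g i` (`i < r`) are integral forms of even degrees on `ℙ^n` with squarefree product.  For an
integer `a ≠ 0` let `U_a` be the variety of all `(s, (x_i : y_i : z_i)_i)`, `s ∈ ℙ^n`, all
`f i (s), g i (s) ≠ 0`, `a x_i² = f i (s) y_i² + g i (s) z_i²`.  There is a function `W → ∞` such that for one hundred per cent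
of the everywhere locally soluble `U_a` the rational points are not empty, and they are dense, up to
`1 / (W(|a|) + 1)`, in the product of the local points over `ℝ` and the `ℚ_p` for all primes
`p ≤ W(|a|)`; the same holds, with the same function, for one hundred per cent of the everywhere locally
soluble `U_{α p}`, `p` prime, for every fixed `α`.
-/

namespace Pool.Agent.Results.MP_e426f4_ag.TwistedConicBundles

open MvPolynomial Filter Topology

/-- Coordinates over `K` of a point of `ℙ^n × (ℙ²)^r`: `s` and `(x i, y i, z i)`, `i < r`. -/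
structure Coord (n r : ℕ) (K : Type) where
  /-- the coordinates of the base point -/
  s : Fin (n + 1) → K
  /-- the first coordinates -/
  x : Fin r → K
  /-- the second coordinates -/
  y : Fin r → K
  /-- the third coordinates -/
  z : Fin r → K

/-- These are coordinates of a point of `U_a` over `K`: all `f i (s)`, `g i (s)` are nonzero, and for
every `i` the nonzero vector `(x i, y i, z i)` satisfies `a x² = f i (s) y² + g i (s) z²`. -/
def IsPoint {n r : ℕ} (f g : Fin r → MvPolynomial (Fin (n + 1)) ℤ) (a : ℤ) {K : Type} [Field K]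
    (P : Coord n r K) : Prop :=
  (∀ i, aeval P.s (f i) ≠ 0 ∧ aeval P.s (g i) ≠ 0) ∧
    ∀ i, (P.x i ≠ 0 ∨ P.y i ≠ 0 ∨ P.z i ≠ 0) ∧
      (a : K) * P.x i ^ 2 = aeval P.s (f i) * P.y i ^ 2 + aeval P.s (g i) * P.z i ^ 2

/-- `U_a` has a point over `K`. -/
def HasPoint {n r : ℕ} (f g : Fin r → MvPolynomial (Fin (n + 1)) ℤ) (a : ℤ) (K : Type) [Field K] :
    Prop :=
  ∃ P : Coord n r K, IsPoint f g a P

/-- `a ≠ 0` and `U_a` has points over all completions of `ℚ`. -/
def EverywhereLocallySoluble {n r : ℕ} (f g : Fin r → MvPolynomial (Fin (n + 1)) ℤ) (a : ℤ) : Prop :=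
  a ≠ 0 ∧ HasPoint f g a ℝ ∧ ∀ (p : ℕ) [Fact p.Prime], HasPoint f g a ℚ_[p]

/-- The coordinates `s`, `c x`, `y`, `z` have absolute value at most `1`. -/
def Bounded {n r : ℕ} {K : Type} [NormedField K] (c : K) (P : Coord n r K) : Prop :=
  (∀ j, ‖P.s j‖ ≤ 1) ∧ ∀ i, ‖c * P.x i‖ ≤ 1 ∧ ‖P.y i‖ ≤ 1 ∧ ‖P.z i‖ ≤ 1

/-- The coordinates `s`, `c x`, `y`, `z` of the rational `R` are within `ε` of those of `P`. -/
def Close {n r : ℕ} {K : Type} [NormedField K] (c : K) (ε : ℝ) (R : Coord n r ℚ)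
    (P : Coord n r K) : Prop :=
  (∀ j, ‖(R.s j : K) - P.s j‖ < ε) ∧ ∀ i, ‖c * ((R.x i : K) - P.x i)‖ < ε ∧
    ‖(R.y i : K) - P.y i‖ < ε ∧ ‖(R.z i : K) - P.z i‖ < ε

/-- `U_a` has a rational point, and for all points of `U_a` over `ℝ` and over the `ℚ_p`, `p ≤ w`, given
by coordinates of absolute value at most `1` (every point has such coordinates), there is one rational
point of `U_a` with coordinates within `ε` of those of all of them.  Over `ℝ` the coordinates are `s`,
`√|a| x`, `y`, `z`. -/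
def WeakApproximation {n r : ℕ} (f g : Fin r → MvPolynomial (Fin (n + 1)) ℤ) (w : ℕ) (ε : ℝ)
    (a : ℤ) : Prop :=
  HasPoint f g a ℚ ∧
    ∀ (P : Coord n r ℝ) (Q : ∀ (p : ℕ) [Fact p.Prime], Coord n r ℚ_[p]),
      IsPoint f g a P → Bounded √|(a : ℝ)| P →
      (∀ (p : ℕ) [Fact p.Prime], p ≤ w → IsPoint f g a (Q p) ∧ Bounded 1 (Q p)) →
      ∃ R : Coord n r ℚ, IsPoint f g a R ∧ Close √|(a : ℝ)| ε R P ∧
        ∀ (p : ℕ) [Fact p.Prime], p ≤ w → Close 1 ε R (Q p)

/-- the two families of forms as one family -/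
private def fam {n r : ℕ} (f g : Fin r → MvPolynomial (Fin (n + 1)) ℤ) :
    Fin r → Bool → MvPolynomial (Fin (n + 1)) ℤ := fun i b => if b then g i else f i

/-- the vectors of the conics -/
private def vec {n r : ℕ} {K : Type} (P : Coord n r K) : Fin r → Fin 3 → K :=
  fun i => ![P.x i, P.y i, P.z i]

private theorem isPoint_iff {n r : ℕ} (f g : Fin r → MvPolynomial (Fin (n + 1)) ℤ) (a : ℤ)
    {K : Type} [Field K] (P : Coord n r K) : IsPoint f g a P ↔ TwWA.IsPt (fam f g) a P.s (vec P) := by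
  unfold IsPoint TwWA.IsPt fam vec
  refine and_congr ?_ (forall_congr' fun i => and_congr ?_ ?_)
  · constructor
    · intro h i b
      cases b
      · exact (h i).1
      · exact (h i).2
    · intro h i
      exact ⟨h i false, h i true⟩
  · constructor
    · intro h h0
      rcases h with h | h | h
      · exact h (congrFun h0 0)
      · exact h (congrFun h0 1)
      · exact h (congrFun h0 2)
    · intro h
      by_contra hc
      push Not at hc
      refine h (funext fun k => ?_)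
      fin_cases k
      · exact hc.1
      · exact hc.2.1
      · exact hc.2.2
  · simp

private theorem isPoint_of {n r : ℕ} (f g : Fin r → MvPolynomial (Fin (n + 1)) ℤ) (a : ℤ)
    {K : Type} [Field K] (s : Fin (n + 1) → K) (v : Fin r → Fin 3 → K)
    (h : TwWA.IsPt (fam f g) a s v) :
    IsPoint f g a (⟨s, fun i => v i 0, fun i => v i 1, fun i => v i 2⟩ : Coord n r K) := by
  rw [isPoint_iff]
  have : vec (⟨s, fun i => v i 0, fun i => v i 1, fun i => v i 2⟩ : Coord n r K) = v := by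
    funext i k
    unfold vec
    fin_cases k <;> rfl
  rw [this]
  exact h

private theorem hasPoint_iff {n r : ℕ} (f g : Fin r → MvPolynomial (Fin (n + 1)) ℤ) (a : ℤ)
    (K : Type) [Field K] : HasPoint f g a K ↔ TwHP.Sol (fam f g) a K := by
  rw [TwWA.sol_iff]
  constructor
  · rintro ⟨P, hP⟩
    exact ⟨P.s, vec P, (isPoint_iff f g a P).1 hP⟩
  · rintro ⟨s, v, h⟩
    exact ⟨_, isPoint_of f g a s v h⟩

private theorem els_iff {n r : ℕ} (f g : Fin r → MvPolynomial (Fin (n + 1)) ℤ) (a : ℤ) :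
    EverywhereLocallySoluble f g a ↔ TwHP.ELS (fam f g) a := by
  unfold EverywhereLocallySoluble TwHP.ELS
  simp only [hasPoint_iff]

/-- a rational point gives a point over every field of characteristic zero -/
private theorem hasPoint_of_rat {n r : ℕ} (f g : Fin r → MvPolynomial (Fin (n + 1)) ℤ) (a : ℤ)
    (K : Type) [Field K] [CharZero K] (h : HasPoint f g a ℚ) : HasPoint f g a K := by
  obtain ⟨P, hs, h2⟩ := h
  set φ : ℚ →+* K := algebraMap ℚ K with hφ
  have key : ∀ F : MvPolynomial (Fin (n + 1)) ℤ, aeval (fun j => φ (P.s j)) F = φ (aeval P.s F) := by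
    intro F
    have h1 : (aeval (fun j => φ (P.s j)) : MvPolynomial (Fin (n + 1)) ℤ →ₐ[ℤ] K).toRingHom =
        φ.comp (aeval P.s : MvPolynomial (Fin (n + 1)) ℤ →ₐ[ℤ] ℚ).toRingHom := by
      apply MvPolynomial.ringHom_ext
      · intro r; simp
      · intro j; simp
    have h3 := RingHom.congr_fun h1 F
    simpa using h3
  refine ⟨⟨fun j => φ (P.s j), fun i => φ (P.x i), fun i => φ (P.y i), fun i => φ (P.z i)⟩,
    fun i => ?_, fun i => ?_⟩
  · rw [key, key]
    exact ⟨(map_ne_zero φ).2 (hs i).1, (map_ne_zero φ).2 (hs i).2⟩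
  · obtain ⟨hne, he⟩ := h2 i
    refine ⟨by simpa [map_ne_zero] using hne, ?_⟩
    rw [key, key]
    have := congrArg φ he
    simpa [map_mul, map_pow, map_add] using this

/-- density gives weak approximation -/
private theorem wa_of {n r : ℕ} (f g : Fin r → MvPolynomial (Fin (n + 1)) ℤ) (w : ℕ) (ε : ℝ) (a : ℤ)
    (h0 : HasPoint f g a ℚ) (h : TwWA.Dense (fam f g) w ε a) : WeakApproximation f g w ε a := by
  refine ⟨h0, fun P Q hP hPb hQ => ?_⟩
  obtain ⟨s, v, hsv, h1, h2, h3⟩ := h ⟨P.s, vec P, fun p _ => (Q p).s, fun p _ => vec (Q p)⟩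
    ⟨(isPoint_iff f g a P).1 hP, fun p _ hp => (isPoint_iff f g a (Q p)).1 (hQ p hp).1⟩
    ⟨fun j => hPb.1 j, fun i => ⟨(hPb.2 i).1, (hPb.2 i).2.1, (hPb.2 i).2.2⟩⟩ (by
      intro p _ hp
      refine ⟨fun j => (hQ p hp).2.1 j, fun i k => ?_⟩
      obtain ⟨b1, b2, b3⟩ := (hQ p hp).2.2 i
      rw [one_mul] at b1
      fin_cases k
      · exact b1
      · exact b2
      · exact b3)
  refine ⟨_, isPoint_of f g a s v hsv, ⟨fun j => h1 j, fun i => ⟨?_, (h2 i).2.1, (h2 i).2.2⟩⟩, ?_⟩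
  · rw [mul_sub]
    exact (h2 i).1
  · intro p _ hp
    obtain ⟨h4, h5⟩ := h3 p hp
    refine ⟨fun j => h4 j, fun i => ⟨?_, h5 i 1, h5 i 2⟩⟩
    rw [one_mul]
    exact h5 i 0

/-- weak approximation gives density -/
private theorem dense_of {n r : ℕ} (f g : Fin r → MvPolynomial (Fin (n + 1)) ℤ) (w : ℕ) (ε : ℝ)
    (a : ℤ) (h : WeakApproximation f g w ε a) : TwWA.Dense (fam f g) w ε a := by
  intro L hL hB hBP
  have hv : ∀ {K : Type} (v : Fin r → Fin 3 → K) (s : Fin (n + 1) → K),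
      vec (⟨s, fun i => v i 0, fun i => v i 1, fun i => v i 2⟩ : Coord n r K) = v := by
    intro K v s
    funext i k
    unfold vec
    fin_cases k <;> rfl
  obtain ⟨R, hR, h1, h2⟩ := h.2
    ⟨L.sR, fun i => L.vR i 0, fun i => L.vR i 1, fun i => L.vR i 2⟩
    (fun p _ => ⟨L.sP p, fun i => L.vP p i 0, fun i => L.vP p i 1, fun i => L.vP p i 2⟩)
    (isPoint_of f g a _ _ hL.1) ⟨hB.1, hB.2⟩ (fun p _ hp => ⟨isPoint_of f g a _ _ (hL.2 p hp),
      (hBP p hp).1, fun i => ⟨by rw [one_mul]; exact (hBP p hp).2 i 0, (hBP p hp).2 i 1,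
        (hBP p hp).2 i 2⟩⟩)
  refine ⟨R.s, vec R, (isPoint_iff f g a R).1 hR, fun j => h1.1 j,
    fun i => ⟨?_, (h1.2 i).2.1, (h1.2 i).2.2⟩, fun p _ hp => ⟨fun j => (h2 p hp).1 j, ?_⟩⟩
  · rw [← mul_sub]
    exact (h1.2 i).1
  · intro i k
    obtain ⟨b1, b2, b3⟩ := (h2 p hp).2 i
    rw [one_mul] at b1
    fin_cases k
    · exact b1
    · exact b2
    · exact b3

private theorem fam_of {n r : ℕ} (f g : Fin r → MvPolynomial (Fin (n + 1)) ℤ)
    (d e : Fin r → ℕ) (hf : ∀ i, (f i).IsHomogeneous (d i) ∧ Even (d i))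
    (hg : ∀ i, (g i).IsHomogeneous (e i) ∧ Even (e i)) (hde : ∀ i, 0 < d i + e i)
    (hsq : Squarefree ((∏ i, f i * g i).map (Int.castRingHom ℚ))) :
    TwHP.Fam (fam f g) (fun i b => if b then e i else d i) := by
  constructor
  · intro i b
    cases b
    · exact (hf i).1
    · exact (hg i).1
  · intro i b
    cases b
    · exact (hf i).2
    · exact (hg i).2
  · simpa [fam] using hsq
  · intro i
    simpa using hde i

/-- Weak approximation at the `p ≤ w` up to `ε` implies it for smaller `w` and larger `ε`. -/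
theorem weakApproximation_anti {n r : ℕ} (f g : Fin r → MvPolynomial (Fin (n + 1)) ℤ)
    (d e : Fin r → ℕ) (hf : ∀ i, (f i).IsHomogeneous (d i) ∧ Even (d i))
    (hg : ∀ i, (g i).IsHomogeneous (e i) ∧ Even (e i)) (hde : ∀ i, 0 < d i + e i)
    (hsq : Squarefree ((∏ i, f i * g i).map (Int.castRingHom ℚ))) (a : ℤ) (ha : a ≠ 0)
    {w w' : ℕ} (hw : w' ≤ w) {ε ε' : ℝ} (hε : ε ≤ ε') (h : WeakApproximation f g w ε a) :
    WeakApproximation f g w' ε' a := by
  have hels : TwHP.ELS (fam f g) a := (els_iff f g a).1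
    ⟨ha, hasPoint_of_rat f g a ℝ h.1, fun p _ => hasPoint_of_rat f g a ℚ_[p] h.1⟩
  exact wa_of f g w' ε' a h.1 (TwWA.dense_anti (fam f g) _ (fam_of f g d e hf hg hde hsq) hw hε a
    hels (dense_of f g w ε a h))

/-- **Weak approximation for almost all twists of a fibration into products of conics over `ℙ^n`.** -/
theorem result (n r : ℕ) (hr : 0 < r) (f g : Fin r → MvPolynomial (Fin (n + 1)) ℤ)
    (d e : Fin r → ℕ) (hf : ∀ i, (f i).IsHomogeneous (d i) ∧ Even (d i))
    (hg : ∀ i, (g i).IsHomogeneous (e i) ∧ Even (e i)) (hde : ∀ i, 0 < d i + e i)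
    (hsq : Squarefree ((∏ i, f i * g i).map (Int.castRingHom ℚ))) :
    ∃ W : ℕ → ℕ, Monotone W ∧ Tendsto W atTop atTop ∧
    ((∃ a, EverywhereLocallySoluble f g a) →
      -- a positive proportion of the twists is everywhere locally soluble
      (∃ c : ℝ, 0 < c ∧ ∀ᶠ H : ℕ in atTop, c * (H : ℝ) ≤
        (Set.ncard {a : ℤ | |a| ≤ H ∧ EverywhereLocallySoluble f g a} : ℝ)) ∧
      -- for one hundred per cent of these the rational points are not empty and dense, up to
      -- `1 / (W(|a|) + 1)`, at the real place and at all primes up to `W(|a|)`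
      Tendsto (fun H : ℕ =>
        (Set.ncard {a : ℤ | |a| ≤ H ∧ a ≠ 0 ∧
          WeakApproximation f g (W a.natAbs) (1 / ((W a.natAbs : ℝ) + 1)) a} : ℝ) /
        (Set.ncard {a : ℤ | |a| ≤ H ∧ EverywhereLocallySoluble f g a} : ℝ)) atTop (𝓝 1)) ∧
    -- the same for the twists by `α p`, for every `α ≠ 0`
    (∀ α : ℤ, α ≠ 0 → Tendsto (fun x : ℕ =>
      (Set.ncard {p : ℕ | p ≤ x ∧ p.Prime ∧ EverywhereLocallySoluble f g (α * p) ∧
        ¬ WeakApproximation f g (W (α * p).natAbs) (1 / ((W (α * p).natAbs : ℝ) + 1)) (α * p)} : ℝ) /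
        (Nat.primeCounting x : ℝ)) atTop (𝓝 0)) ∧
    -- for one conic some twist is always everywhere locally soluble
    (r = 1 → ∃ a, EverywhereLocallySoluble f g a) := by
  classical
  haveI : Nonempty (Fin r) := ⟨⟨0, hr⟩⟩
  have hF := fam_of f g d e hf hg hde hsq
  have fin : ∀ (H : ℕ) (p : ℤ → Prop), {a : ℤ | |a| ≤ H ∧ p a}.Finite := by
    intro H p
    refine (Set.finite_Icc (-(H : ℤ)) H).subset ?_
    intro a ha
    exact abs_le.1 ha.1
  have hwa : ∀ (w : ℕ) (ε : ℝ) (a : ℤ), TwHP.ELS (fam f g) a → TwWA.Dense (fam f g) w ε a →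
      WeakApproximation f g w ε a := fun w ε a h1 h2 =>
    wa_of f g w ε a ((hasPoint_iff f g a ℚ).2 (TwWA.dense_sol (fam f g) _ hF w ε a h1 h2)) h2
  obtain ⟨W, hW1, hW2, hWZ, hWP⟩ := TwWA.diag_dense (fam f g) _ hF
    (fun w ρ hρ => TwWA.dense_z (fam f g) _ hF w ρ hρ)
  have hWt : Tendsto W atTop atTop := by
    rw [tendsto_atTop]
    intro k
    obtain ⟨N, hN⟩ := hW2 k
    filter_upwards [eventually_ge_atTop N] with h hh
    exact hN h hh
  refine ⟨W, hW1, hWt, fun hex => ?_, fun α hα => ?_, fun h1 => ?_⟩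
  · obtain ⟨a0, ha0⟩ := hex
    obtain ⟨c, hc, hpos⟩ := TwHP.els_pos (fam f g) _ hF a0 ((els_iff f g a0).1 ha0)
    have hpos' : ∀ᶠ H : ℕ in atTop, c * (H : ℝ) ≤
        (Set.ncard {a : ℤ | |a| ≤ H ∧ EverywhereLocallySoluble f g a} : ℝ) := by
      simpa only [els_iff] using hpos
    refine ⟨⟨c, hc, hpos'⟩, ?_⟩
    have hle : ∀ H : ℕ, Set.ncard {a : ℤ | |a| ≤ H ∧ a ≠ 0 ∧ WeakApproximation f g (W a.natAbs) (1 / ((W a.natAbs : ℝ) + 1)) a} ≤
        Set.ncard {a : ℤ | |a| ≤ H ∧ EverywhereLocallySoluble f g a} := fun H =>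
      Set.ncard_le_ncard (fun a ha => ⟨ha.1, ha.2.1, hasPoint_of_rat f g a ℝ ha.2.2.1,
        fun p _ => hasPoint_of_rat f g a ℚ_[p] ha.2.2.1⟩) (fin H _)
    have hadd : ∀ H : ℕ, Set.ncard {a : ℤ | |a| ≤ H ∧ EverywhereLocallySoluble f g a} ≤
        Set.ncard {a : ℤ | |a| ≤ H ∧ a ≠ 0 ∧ WeakApproximation f g (W a.natAbs) (1 / ((W a.natAbs : ℝ) + 1)) a} +
        Set.ncard {a : ℤ | |a| ≤ H ∧
          a ∈ {a : ℤ | TwHP.ELS (fam f g) a ∧ ¬ TwWA.Dense (fam f g) (W a.natAbs) (1 / ((W a.natAbs : ℝ) + 1)) a}} := by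
      intro H
      refine (Set.ncard_le_ncard ?_ ((fin H _).union (fin H _))).trans (Set.ncard_union_le _ _)
      intro a ha
      have hels := (els_iff f g a).1 ha.2
      by_cases h : TwWA.Dense (fam f g) (W a.natAbs) (1 / ((W a.natAbs : ℝ) + 1)) a
      · exact Or.inl ⟨ha.1, ha.2.1, hwa _ _ a hels h⟩
      · exact Or.inr ⟨ha.1, hels, h⟩
    rw [Metric.tendsto_nhds]
    intro η hη
    obtain ⟨H0, hH0⟩ := hWZ (c * (η / 2)) (by positivity)
    filter_upwards [hpos', eventually_ge_atTop H0, eventually_gt_atTop 0] with H h1 h2 h0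
    have h2 := hH0 H h2
    set S : ℝ := (Set.ncard {a : ℤ | |a| ≤ H ∧ EverywhereLocallySoluble f g a} : ℝ) with hS
    set T : ℝ := (Set.ncard {a : ℤ | |a| ≤ H ∧ a ≠ 0 ∧ WeakApproximation f g (W a.natAbs) (1 / ((W a.natAbs : ℝ) + 1)) a} : ℝ) with hT
    have hHpos : (0 : ℝ) < H := by exact_mod_cast h0
    have hS0 : 0 < S := lt_of_lt_of_le (by positivity) h1
    have h3 : T ≤ S := by rw [hS, hT]; exact_mod_cast hle H
    have h4 : S ≤ T + c * (η / 2) * H := by
      have : S ≤ T + (Set.ncard {a : ℤ | |a| ≤ H ∧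
          a ∈ {a : ℤ | TwHP.ELS (fam f g) a ∧ ¬ TwWA.Dense (fam f g) (W a.natAbs) (1 / ((W a.natAbs : ℝ) + 1)) a}} : ℝ) := by
        rw [hS, hT]; exact_mod_cast hadd H
      linarith
    rw [Real.dist_eq, abs_sub_comm, abs_of_nonneg]
    · have h5 : S - T ≤ η / 2 * S := by nlinarith
      have h6 : 1 - T / S = (S - T) / S := by field_simp
      rw [h6, div_lt_iff₀ hS0]
      nlinarith
    · rw [sub_nonneg, div_le_one hS0]
      exact h3
  · rw [Metric.tendsto_nhds]
    intro η hη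
    obtain ⟨x0, hx0⟩ := hWP α hα (fun w ρ hρ => TwWA.dense_p (fam f g) _ hF α hα w ρ hρ) (η / 4) (by positivity)
    have hpi : ∀ᶠ x : ℕ in atTop, (x : ℝ) / Real.log x ≤ 2 * (Nat.primeCounting x : ℝ) ∧
        (1 : ℝ) < x := by
      have h1 : (fun x : ℝ => Real.log x) =o[atTop] (fun x : ℝ => x ^ (1 : ℝ)) :=
        isLittleO_log_rpow_atTop (by norm_num)
      have h2 := h1.bound (c := 1 / 40) (by positivity)
      have h3 := (h2.and (eventually_gt_atTop (1 : ℝ)))
      filter_upwards [tendsto_natCast_atTop_atTop (R := ℝ) |>.eventually h3] with x hx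
      obtain ⟨h4, h5⟩ := hx
      refine ⟨?_, h5⟩
      have hlog : 0 < Real.log x := Real.log_pos h5
      rw [Real.norm_of_nonneg hlog.le, Real.rpow_one, Real.norm_of_nonneg (by linarith)] at h4
      have h6 := Chebyshev.pi_ge x
      have h7 : Real.log ((x : ℝ) + 1) ≤ 2 * Real.log x + 1 / 40 * x := by
        have : Real.log ((x : ℝ) + 1) ≤ Real.log (2 * x) := Real.log_le_log (by linarith) (by linarith)
        rw [Real.log_mul (by norm_num) (by linarith)] at this
        have h8 : Real.log 2 ≤ 1 := by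
          have := Real.log_two_lt_d9; linarith
        have h9 : 2 ≤ x := by exact_mod_cast h5
        have h10 : Real.log 2 ≤ Real.log x := Real.log_le_log (by norm_num) (by exact_mod_cast h9)
        linarith
      have h8 : 0.6931471803 < Real.log 2 := Real.log_two_gt_d9
      have h9 : (x : ℝ) / 2 ≤ x * Real.log 2 - Real.log (x + 1) := by nlinarith
      have h10 : (x : ℝ) / 2 / Real.log x ≤ Nat.primeCounting x :=
        (div_le_div_of_nonneg_right h9 hlog.le).trans h6
      have h11 : (x : ℝ) / Real.log x = 2 * ((x : ℝ) / 2 / Real.log x) := by field_simp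
      rw [h11]
      linarith
    filter_upwards [hpi, eventually_ge_atTop x0] with x h1 h2
    have h3 := hx0 x h2
    have h4 : (Set.ncard {p : ℕ | p ≤ x ∧ p.Prime ∧ EverywhereLocallySoluble f g (α * p) ∧
        ¬ WeakApproximation f g (W (α * p).natAbs) (1 / ((W (α * p).natAbs : ℝ) + 1)) (α * p)} : ℝ) ≤ η / 4 * ((x : ℝ) / Real.log x) := by
      refine le_trans ?_ h3
      refine Nat.cast_le.2 (Set.ncard_le_ncard ?_ ((Set.finite_Iic x).subset ?_))
      · rintro p ⟨p1, p2, p3, p4⟩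
        have hels := (els_iff f g _).1 p3
        exact ⟨p1, p2, hels, fun h' => p4 (hwa _ _ _ hels h')⟩
      · rintro p ⟨p1, -⟩
        exact p1
    have hlog : 0 < Real.log x := Real.log_pos h1.2
    have h5 : 0 < (x : ℝ) / Real.log x := by
      have := h1.2
      positivity
    have h6 : 0 < (Nat.primeCounting x : ℝ) := by linarith [h1.1]
    rw [Real.dist_eq, sub_zero, abs_of_nonneg (by positivity), div_lt_iff₀ h6]
    nlinarith [h1.1]
  · obtain ⟨a0, h0⟩ := TwHP.els_one (fam f g) _ hF (by simp [h1])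
    exact ⟨a0, (els_iff f g a0).2 h0⟩

end Pool.Agent.Results.MP_e426f4_ag.TwistedConicBundles
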